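import Pool.Agent.H59.L.S8.W973.CUT
import Pool.Agent.H59.L.S8.W558.S2.Stms3
import Pool.Agent.H59.L.S8.W558.U1

/-!
# Restriction of a stage to a component of the divisor of a function
-/

set_option autoImplicit false
set_option linter.unusedVariables false
set_option linter.unusedSectionVars false

universe u

open Polynomial

namespace Pool.Agent.W973.CUT2

open Pool.Agent.W558 Pool.Agent.W973.CUT

section ring

lemma exists_mul_pow {R : Type*} [CommRing R] {I p : Ideal R} (hp : p ∈ I.minimalPrimes)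
    {x : R} (hx : x ∈ p) : ∃ s, s ∉ p ∧ ∃ n : ℕ, s * x ^ n ∈ I := by
  have hp' : p.IsPrime := hp.1.1
  have h1 := IsLocalization.AtPrime.radical_map_of_mem_minimalPrimes
    (A := Localization.AtPrime p) p I hp
  have h2 : algebraMap R (Localization.AtPrime p) x ∈
      (I.map (algebraMap R (Localization.AtPrime p))).radical := by
    rw [h1]; exact Ideal.mem_map_of_mem _ hx
  obtain ⟨n, hn⟩ := h2
  rw [← map_pow, IsLocalization.mem_map_algebraMap_iff (M := p.primeCompl)] at hn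
  obtain ⟨⟨a, b⟩, hn⟩ := hn
  rw [← map_mul, IsLocalization.eq_iff_exists p.primeCompl] at hn
  obtain ⟨t, ht⟩ := hn
  refine ⟨t * b, (t * b).2, n, ?_⟩
  have : (t : R) * b * x ^ n = t * a := by
    rw [← ht]; ring
  rw [this]
  exact I.mul_mem_left _ a.2

/-- The irreducible components of smooth algebras are smooth. -/
lemma smooth_comp (hloc : S2_loc.{u}) {k R : Type u} [Field k] [CommRing R] [Algebra k R]
    [Algebra.Smooth k R] (P : Ideal R) (hP : P ∈ minimalPrimes R) :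
    Algebra.Smooth k (R ⧸ P) := by
  have hJ : P.annihilator ⊔ P = ⊤ := by
    by_contra hne
    obtain ⟨m, hm, hle⟩ := Ideal.exists_le_maximal _ hne
    obtain ⟨e, he, h⟩ := hloc k R P m hP hm.isPrime (le_sup_right.trans hle)
    exact he (hle (Ideal.mem_sup_left (Submodule.mem_annihilator.2 fun a ha => h a ha)))
  obtain ⟨e, he, p, hp, hep⟩ := Submodule.mem_sup.1 ((Ideal.eq_top_iff_one _).1 hJ)
  have he' : ∀ a ∈ P, e * a = 0 := fun a ha => Submodule.mem_annihilator.1 he a ha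
  have hid : IsIdempotentElem e := by
    have h1 : e * (e + p) = e * e := by rw [mul_add, he' p hp, add_zero]
    rw [hep, mul_one] at h1
    exact h1.symm
  have hPe : P = Ideal.span {1 - e} := by
    have h1 : 1 - e = p := by rw [← hep]; ring
    rw [h1]
    apply le_antisymm
    · intro x hx
      rw [Ideal.mem_span_singleton]
      refine ⟨x, ?_⟩
      calc x = (e + p) * x := by rw [hep, one_mul]
        _ = p * x := by rw [add_mul, he' x hx, zero_add]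
    · rw [Ideal.span_singleton_le_iff_mem]
      exact hp
  rw [hPe]
  have := IsLocalization.Away.quotient_of_isIdempotentElem hid
  have h2 : Algebra.Smooth R (R ⧸ Ideal.span {1 - e}) := Algebra.Smooth.of_isLocalization_Away e
  exact Algebra.Smooth.comp k R (R ⧸ Ideal.span {1 - e})

lemma smooth_of_surj (hloc : S2_loc.{u}) {k R S : Type u} [Field k] [CommRing R] [Algebra k R]
    [CommRing S] [Algebra k S] [Algebra.Smooth k R] (ψ : R →ₐ[k] S)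
    (hψ : Function.Surjective ψ) (hker : RingHom.ker ψ ∈ minimalPrimes R) :
    Algebra.Smooth k S := by
  have h2 := smooth_comp hloc (k := k) _ hker
  exact Algebra.Smooth.of_equiv (Ideal.quotientKerAlgEquivOfSurjective hψ)

/-- The local form of the kernel. -/
lemma local_ker (hloc : S2_loc.{u}) {k A : Type u} [Field k] [CommRing A] [Algebra k A] (y : A)
    [Algebra.Smooth k (A ⧸ Ideal.span {y})] (P m : Ideal A)
    (hP : P ∈ (Ideal.span {y}).minimalPrimes) (hm : m.IsPrime) (hPm : P ≤ m) :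
    ∃ e, e ∉ m ∧ ∀ a ∈ P, y ∣ e * a := by
  rw [Ideal.minimalPrimes_eq_comap] at hP
  obtain ⟨P', hP', rfl⟩ := hP
  have hym : Ideal.span {y} ≤ m := by
    refine le_trans ?_ hPm
    intro a ha
    have : Ideal.Quotient.mk (Ideal.span {y}) a = 0 := Ideal.Quotient.eq_zero_iff_mem.2 ha
    change Ideal.Quotient.mk _ a ∈ P'
    rw [this]
    exact P'.zero_mem
  have hm' : (m.map (Ideal.Quotient.mk (Ideal.span {y}))).IsPrime :=
    Ideal.map_isPrime_of_surjective Ideal.Quotient.mk_surjective (by rw [Ideal.mk_ker]; exact hym)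
  have hle : P' ≤ m.map (Ideal.Quotient.mk (Ideal.span {y})) := by
    intro x hx
    obtain ⟨a, rfl⟩ := Ideal.Quotient.mk_surjective x
    exact Ideal.mem_map_of_mem _ (hPm hx)
  obtain ⟨e', he', h⟩ := hloc k _ P' _ hP' hm' hle
  obtain ⟨e, rfl⟩ := Ideal.Quotient.mk_surjective e'
  refine ⟨e, fun hem => he' (Ideal.mem_map_of_mem _ hem), fun a ha => ?_⟩
  have h1 := h _ ha
  rw [← map_mul, Ideal.Quotient.eq_zero_iff_mem, Ideal.mem_span_singleton] at h1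
  exact h1

end ring

section pq

variable {k K L : Type u} [Field k] [Field K] [Algebra k K] [Field L] [Algebra k L]
  {Q : Subalgebra k K} (π : Q →ₐ[k] L)

/-- The local description of the kernel of `π` on the chart `A`. -/
def LK (A : Subalgebra k K) (y : K) : Prop :=
  ∀ m : Ideal A, m.IsPrime → (∀ a (ha : a ∈ A), pq π a = 0 → (⟨a, ha⟩ : A) ∈ m) →
    ∃ e : A, e ∉ m ∧ ∀ a ∈ A, pq π a = 0 → (e : K) * a / y ∈ A

/-- Descent of tangent vectors. -/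
lemma desc2 {A : Subalgebra k K} (h : A ≤ Q) {y : K} (hy : y ∈ A) (hy0 : y ≠ 0)
    (hyπ : pq π y = 0) (hker : LK π A y) {κ : Type u} [Field κ]
    [Algebra k κ] (φ' : im π A h →ₐ[k] κ) (D : TV (φ'.comp (qm π A h)))
    (hD : D.D ⟨y, hy⟩ = 0) :
    ∃ E : TV φ', ∀ a (ha : a ∈ A), E.D ⟨pq π a, pq_mem π h ha⟩ = D.D ⟨a, ha⟩ := by
  have hφ : ∀ a (ha : a ∈ A), pq π a = 0 → (φ'.comp (qm π A h)) ⟨a, ha⟩ = 0 := by
    intro a ha h0
    change φ' (qm π A h ⟨a, ha⟩) = 0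
    rw [qm_apply π h ha]
    have : (⟨pq π a, pq_mem π h ha⟩ : im π A h) = 0 := Subtype.ext h0
    rw [this, map_zero]
  obtain ⟨E, hE⟩ := TV.desc (qm π A h) (qm_surj π A h) φ' (fun a => rfl) D (by
    rintro ⟨a, ha⟩ h0
    have h1 : pq π a = 0 := by
      rw [qm_apply π h ha] at h0
      exact congrArg Subtype.val h0
    obtain ⟨e, he, h2⟩ := hker (RingHom.ker (φ'.comp (qm π A h))) (RingHom.ker_isPrime _)
      (fun a ha h0 => (RingHom.mem_ker).2 (hφ a ha h0))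
    have h2 := h2 a ha h1
    have h3 : e * (⟨a, ha⟩ : A) = ⟨y, hy⟩ * ⟨e * a / y, h2⟩ := by
      apply Subtype.ext
      change (e : K) * a = y * (e * a / y)
      rw [mul_div_cancel₀ _ hy0]
    have h4 : D.D (e * (⟨a, ha⟩ : A)) = 0 := by
      rw [h3, D.leib, hφ y hy hyπ, hD, zero_mul, mul_zero, add_zero]
    rw [D.leib, hφ a ha h1, zero_mul, add_zero] at h4
    refine (mul_eq_zero.1 h4).resolve_left fun h5 => he ?_
    exact (RingHom.mem_ker).2 h5)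
  refine ⟨E, fun a ha => ?_⟩
  rw [← qm_apply π h ha]
  exact hE ⟨a, ha⟩

/-- The image of a chart is smooth. -/
lemma smooth_im2 (hloc : S2_loc.{u}) {A : Subalgebra k K} (h : A ≤ Q) [Algebra.Smooth k A]
    {y : K} (hy : y ∈ A) (hyπ : pq π y = 0)
    (hmin : RingHom.ker (qm π A h) ∈ (Ideal.span {(⟨y, hy⟩ : A)}).minimalPrimes)
    (hv : ∀ (κ : Type u) [Field κ] [Algebra k κ] (φ : A →ₐ[k] κ), φ ⟨y, hy⟩ = 0 →
      ∃ D : TV φ, D.D ⟨y, hy⟩ ≠ 0) : Algebra.Smooth k (im π A h) := by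
  have h1 : Algebra.Smooth k (A ⧸ Ideal.span {(⟨y, hy⟩ : A)}) := smooth_quot _ hv
  let ψ : (A ⧸ Ideal.span {(⟨y, hy⟩ : A)}) →ₐ[k] im π A h :=
    Ideal.Quotient.liftₐ (Ideal.span {(⟨y, hy⟩ : A)}) (qm π A h) (by
      intro a ha
      obtain ⟨b, rfl⟩ := Ideal.mem_span_singleton.1 ha
      have : qm π A h ⟨y, hy⟩ = 0 := by
        rw [qm_apply π h hy]
        exact Subtype.ext hyπ
      rw [map_mul, this, zero_mul])
  have hψ : ∀ a : A, ψ (Ideal.Quotient.mk _ a) = qm π A h a := fun a => rfl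
  have hsurj : Function.Surjective ψ := by
    intro z
    obtain ⟨a, rfl⟩ := qm_surj π A h z
    exact ⟨Ideal.Quotient.mk _ a, rfl⟩
  have hker : RingHom.ker ψ ∈ minimalPrimes (A ⧸ Ideal.span {(⟨y, hy⟩ : A)}) := by
    rw [Ideal.minimalPrimes_eq_comap] at hmin
    obtain ⟨P', hP', hP''⟩ := hmin
    have : RingHom.ker ψ = P' := by
      ext x
      obtain ⟨a, rfl⟩ := Ideal.Quotient.mk_surjective x
      rw [RingHom.mem_ker, hψ, ← RingHom.mem_ker, ← hP'']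
      rfl
    rw [this]
    exact hP'
  exact smooth_of_surj hloc ψ hsurj hker

end pq

section model

variable {k K L : Type u} [Field k] [Field K] [Algebra k K] [Field L] [Algebra k L]
  {Q : Subalgebra k K} (π : Q →ₐ[k] L) {T I : Type} [Fintype I]

/-- The restriction of a model to a divisor. -/
theorem exists_model2 (hK : ∀ x : K, (∃ a b : Q, π b ≠ 0 ∧ x * b = a) ∨
    (∃ a b : Q, π b ≠ 0 ∧ x⁻¹ * b = a)) (M : LM (⊥ : Subalgebra k K) ⊤ T I)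
    (hAQ : ∀ t, M.A t ≤ Q) (hxQ' : ∀ t i, (M.x t i)⁻¹ ∈ Q) (y : T → K) (hy : ∀ t, y t ∈ M.A t)
    (hy0 : ∀ t, y t ≠ 0) (hyπ : ∀ t, pq π (y t) = 0)
    (hker : ∀ t, LK π (M.A t) (y t)) (hsm : ∀ t, Algebra.Smooth k (im π (M.A t) (hAQ t)))
    (hS : ∀ t, SNC (M.A t) (fun o : Option I => o.elim (y t) (M.x t))) :
    ∃ M' : LM (⊥ : Subalgebra k L) ⊤ T I, (M'.A = fun t => im π (M.A t) (hAQ t)) ∧
      M'.x = fun t i => pq π (M.x t i) := by
  obtain ⟨t0⟩ := nonempty_T M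
  have hHQ : ∀ t, M.H t / M.H t0 ∈ Q := fun t => hAQ t0 (M.rt t0 t)
  have hHQ' : ∀ t, (M.H t / M.H t0)⁻¹ ∈ Q := fun t => by
    rw [inv_div]; exact hAQ t (M.rt t t0)
  have hH0 : ∀ t, M.H t / M.H t0 ≠ 0 := fun t => div_ne_zero (M.H0 t) (M.H0 t0)
  have hHdiv : ∀ t t', pq π (M.H t' / M.H t0) / pq π (M.H t / M.H t0) =
      pq π (M.H t' / M.H t) := by
    intro t t'
    rw [← pq_div π (hHQ t') (hH0 t) (hHQ t) (hHQ' t),
      div_div_div_cancel_right₀ (M.H0 t0)]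
  have hxQ : ∀ t i, M.x t i ∈ Q := fun t i => hAQ t (M.xA t i)
  have hφy : ∀ t (κ : Type u) [Field κ] [Algebra k κ] (φ' : im π (M.A t) (hAQ t) →ₐ[k] κ),
      (φ'.comp (qm π (M.A t) (hAQ t))) ⟨y t, hy t⟩ = 0 := by
    intro t κ _ _ φ'
    change φ' (qm π (M.A t) (hAQ t) ⟨y t, hy t⟩) = 0
    rw [qm_apply π (hAQ t) (hy t)]
    have : (⟨pq π (y t), pq_mem π (hAQ t) (hy t)⟩ : im π (M.A t) (hAQ t)) = 0 :=
      Subtype.ext (hyπ t)
    rw [this, map_zero]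
  refine ⟨{ A := fun t => im π (M.A t) (hAQ t)
            H := fun t => pq π (M.H t / M.H t0)
            x := fun t i => pq π (M.x t i)
            sm := hsm
            base := fun t => bot_le
            H0 := fun t => pq_ne π (hH0 t) (hHQ t) (hHQ' t)
            HR := fun t => trivial
            rt := ?_
            gl := ?_
            dn := fun t f hf => ⟨0, trivial⟩
            cv := ?_
            xA := fun t i => pq_mem π _ (M.xA t i)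
            x0 := fun t i => pq_ne π (M.x0 t i) (hxQ t i) (hxQ' t i)
            gi := ?_
            snc := ?_ }, rfl, rfl⟩
  · intro t t'
    rw [hHdiv]
    exact pq_mem π (hAQ t) (M.rt t t')
  · intro t t' f hf
    obtain ⟨a, ha, rfl⟩ := (mem_im π).1 hf
    obtain ⟨n, hn⟩ := M.gl t t' a ha
    refine ⟨n, ?_⟩
    rw [hHdiv, ← pq_pow π (hAQ _ (M.rt t t')),
      ← pq_mul π (Q.pow_mem (hAQ _ (M.rt t t')) n) (hAQ t' ha)]
    exact pq_mem π (hAQ t) hn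
  · intro V hV
    obtain ⟨t, ht⟩ := M.cv (pullV π hK V) (by
      intro a ha
      obtain ⟨r, rfl⟩ := Algebra.mem_bot.1 ha
      refine ⟨algebraMap k Q r, 1, by rw [map_one]; exact one_ne_zero, ?_, ?_⟩
      · rw [Subalgebra.coe_one, mul_one]
        rfl
      · rw [map_one, div_one, AlgHom.commutes]
        exact hV _ (Subalgebra.algebraMap_mem _ r))
    refine ⟨t, ?_⟩
    intro f hf
    obtain ⟨a, ha, rfl⟩ := (mem_im π).1 hf
    exact pullV_pq π (hAQ t ha) (ht a ha)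
  · intro t t' i
    obtain ⟨n, hn⟩ := M.gi t t' i
    refine ⟨n, ?_⟩
    have h1 : M.x t' i / M.x t i ∈ Q := by
      rw [div_eq_mul_inv]
      exact Q.mul_mem (hxQ t' i) (hxQ' t i)
    rw [hHdiv, ← pq_pow π (hAQ _ (M.rt t t')),
      ← pq_div π (hxQ t' i) (M.x0 t i) (hxQ t i) (hxQ' t i),
      ← pq_mul π (Q.pow_mem (hAQ _ (M.rt t t')) n) h1]
    exact pq_mem π (hAQ t) hn
  · intro t κ _ _ φ' i hi hφ'
    have hφ : (φ'.comp (qm π (M.A t) (hAQ t))) ⟨M.x t i, M.xA t i⟩ = 0 := by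
      change φ' (qm π (M.A t) (hAQ t) ⟨M.x t i, M.xA t i⟩) = 0
      rw [qm_apply π (hAQ t) (M.xA t i)]
      exact hφ'
    obtain ⟨D, hD1, hD2⟩ := hS t κ (φ'.comp (qm π (M.A t) (hAQ t))) (some i) (M.xA t i) hφ
    have hDy : D.D ⟨y t, hy t⟩ = 0 := hD2 none (hy t) (by simp) (hφy t κ φ')
    obtain ⟨E, hE⟩ := desc2 π (hAQ t) (hy t) (hy0 t) (hyπ t) (hker t) φ' D hDy
    refine ⟨E, (hE _ (M.xA t i)).trans hD1, ?_⟩
    intro j hj hji hφj
    refine (hE _ (M.xA t j)).trans (hD2 (some j) (M.xA t j) (by simpa using hji) ?_)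
    change φ' (qm π (M.A t) (hAQ t) ⟨M.x t j, M.xA t j⟩) = 0
    rw [qm_apply π (hAQ t) (M.xA t j)]
    exact hφj

end model

section aux

variable {k K L : Type u} [Field k] [Field K] [Algebra k K] [Field L] [Algebra k L]
  {Q : Subalgebra k K}

/-- Lifting of tangent vectors of the base. -/
lemma sub_aux2 (π : Q →ₐ[k] L) {I : Type} {A B : Subalgebra k K} (hAQ : A ≤ Q) (hBA : B ≤ A)
    {x : I → K} (hx : ∀ i, x i ∈ A) {y b : K} (hy : y ∈ A) (hy0 : y ≠ 0) (hyπ : pq π y = 0)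
    (hb : b ∈ B) (hker : LK π A y)
    (hvert : ∀ (κ : Type u) [Field κ] [Algebra k κ] (φ : A →ₐ[k] κ), φ ⟨y, hy⟩ = 0 →
      ∃ δ : TV φ, δ.D ⟨y, hy⟩ ≠ 0 ∧ (∀ c (hc : c ∈ B), δ.D ⟨c, hBA hc⟩ = 0) ∧
        ∀ i, φ ⟨x i, hx i⟩ = 0 → δ.D ⟨x i, hx i⟩ = 0)
    (hsub : ∀ (κ : Type u) [Field κ] [Algebra k κ] (φ : A →ₐ[k] κ) (φ0 : B →ₐ[k] κ),
      (∀ c (hc : c ∈ B), φ ⟨c, hBA hc⟩ = φ0 ⟨c, hc⟩) → φ0 ⟨b, hb⟩ ≠ 0 →
      ∀ D0 : TV φ0, ∃ D : TV φ, (∀ c (hc : c ∈ B), D.D ⟨c, hBA hc⟩ = D0.D ⟨c, hc⟩) ∧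
        ∀ i, φ ⟨x i, hx i⟩ = 0 → D.D ⟨x i, hx i⟩ = 0)
    (A' : Subalgebra k L) (hA' : A' = im π A hAQ) (B' : Subalgebra k L)
    (hB' : B' = im π B (hBA.trans hAQ)) (x' : I → L) (hx'e : x' = fun i => pq π (x i))
    (hx' : ∀ i, x' i ∈ A') (b' : L) (hb'e : b' = pq π b) (hb' : b' ∈ B') (hBA' : B' ≤ A')
    {κ : Type u} [Field κ] [Algebra k κ] (φ' : A' →ₐ[k] κ) (φ0' : B' →ₐ[k] κ)
    (h1 : ∀ c (hc : c ∈ B'), φ' ⟨c, hBA' hc⟩ = φ0' ⟨c, hc⟩) (h2 : φ0' ⟨b', hb'⟩ ≠ 0)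
    (D0 : TV φ0') : ∃ D : TV φ', (∀ c (hc : c ∈ B'), D.D ⟨c, hBA' hc⟩ = D0.D ⟨c, hc⟩) ∧
      ∀ i, φ' ⟨x' i, hx' i⟩ = 0 → D.D ⟨x' i, hx' i⟩ = 0 := by
  subst hA' hB' hx'e hb'e
  have hBQ := hBA.trans hAQ
  have e1 : ∀ a (ha : a ∈ A), (φ'.comp (qm π A hAQ)) ⟨a, ha⟩ =
      φ' ⟨pq π a, pq_mem π hAQ ha⟩ := by
    intro a ha
    change φ' (qm π A hAQ ⟨a, ha⟩) = _
    rw [qm_apply π hAQ ha]
  have e2 : ∀ a (ha : a ∈ B), (φ0'.comp (qm π B hBQ)) ⟨a, ha⟩ =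
      φ0' ⟨pq π a, pq_mem π hBQ ha⟩ := by
    intro a ha
    change φ0' (qm π B hBQ ⟨a, ha⟩) = _
    rw [qm_apply π hBQ ha]
  obtain ⟨D, hD1, hD2⟩ := hsub κ (φ'.comp (qm π A hAQ)) (φ0'.comp (qm π B hBQ))
    (fun c hc => by rw [e1 c (hBA hc), e2 c hc]; exact h1 _ (pq_mem π hBQ hc))
    (by rw [e2 b hb]; exact h2) (D0.restr (qm π B hBQ))
  have hφy : (φ'.comp (qm π A hAQ)) ⟨y, hy⟩ = 0 := by
    rw [e1 y hy]
    have : (⟨pq π y, pq_mem π hAQ hy⟩ : im π A hAQ) = 0 := Subtype.ext hyπ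
    rw [this, map_zero]
  obtain ⟨δ, hδ1, hδ2, hδ3⟩ := hvert κ _ hφy
  have hF : (TV.comb 1 (-(D.D ⟨y, hy⟩ * (δ.D ⟨y, hy⟩)⁻¹)) D δ).D ⟨y, hy⟩ = 0 := by
    rw [TV.comb_D]
    field_simp
    ring
  obtain ⟨E, hE⟩ := desc2 π hAQ hy hy0 hyπ hker φ' _ hF
  refine ⟨E, ?_, ?_⟩
  · intro z hz
    obtain ⟨a, ha, rfl⟩ := (mem_im π).1 hz
    refine (hE a (hBA ha)).trans ?_
    rw [TV.comb_D, hδ2 a ha, hD1 a ha, TV.restr_D, qm_apply π hBQ ha, one_mul, mul_zero,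
      add_zero]
  · intro i hi
    have hi' : (φ'.comp (qm π A hAQ)) ⟨x i, hx i⟩ = 0 := by
      rw [e1 _ (hx i)]
      exact hi
    refine (hE _ (hx i)).trans ?_
    rw [TV.comb_D, hδ3 i hi', hD2 i hi', mul_zero, mul_zero, add_zero]

/-- The local ring of the divisor is a valuation ring. -/
theorem total [IsNoetherianRing Q] (hK : ∀ x : K, ∃ a b : Q, b ≠ 0 ∧ x * b = a)
    (π : Q →ₐ[k] L) (f : Q) (hf0 : f ≠ 0) (hfπ : π f = 0)
    (h5 : ∀ a, π a = 0 → ∃ e, π e ≠ 0 ∧ f ∣ e * a) (x : K) :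
    (∃ a b : Q, π b ≠ 0 ∧ x * b = a) ∨ (∃ a b : Q, π b ≠ 0 ∧ x⁻¹ * b = a) := by
  let P : Ideal Q := RingHom.ker π
  have hP : P.IsPrime := RingHom.ker_isPrime _
  have hPm : ∀ a, a ∈ P ↔ π a = 0 := fun a => RingHom.mem_ker
  let W : Subalgebra k K := locAt Q P hP
  have hQW : Q ≤ W := le_locAt
  have hWm : ∀ x, x ∈ W ↔ ∃ a b : Q, b ∉ P ∧ x * b = a := fun x => Iff.rfl
  have hne : ∀ b : Q, b ∉ P → (b : K) ≠ 0 := fun b hb => coe_ne_zero_of_notMem hb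
  have hinv : ∀ b : Q, b ∉ P → (b : K)⁻¹ ∈ W := fun b hb => inv_mem_locAt hb
  -- `W` is Noetherian
  let _ : Algebra Q W := (Subalgebra.inclusion hQW).toRingHom.toAlgebra
  have halg : ∀ q : Q, (algebraMap Q W q : K) = q := fun q => rfl
  have hIL : IsLocalization P.primeCompl W := by
    refine ⟨⟨?_, ?_, ?_⟩⟩
    · rintro ⟨b, hb⟩
      exact IsUnit.of_mul_eq_one ⟨(b : K)⁻¹, hinv b hb⟩
        (Subtype.ext (mul_inv_cancel₀ (hne b hb)))
    · rintro ⟨z, hz⟩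
      obtain ⟨a, b, hb, h1⟩ := (hWm z).1 hz
      exact ⟨(a, ⟨b, hb⟩), Subtype.ext h1⟩
    · intro a b hab
      refine ⟨1, ?_⟩
      rw [Submonoid.coe_one, one_mul, one_mul]
      have hab' : (a : K) = b := congrArg (fun w : W => (w : K)) hab
      exact Subtype.ext hab'
  have hN : IsNoetherianRing W := IsLocalization.isNoetherianRing P.primeCompl W inferInstance
  -- `f` is a prime element of `W`
  let f' : W := ⟨f, hQW f.2⟩
  have hfc : (f : K) ≠ 0 := fun h => hf0 (Subtype.ext h)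
  have hdvd : ∀ (z : W) (a b : Q), b ∉ P → (z : K) * b = a → (f' ∣ z ↔ a ∈ P) := by
    intro z a b hb hz
    constructor
    · rintro ⟨w, rfl⟩
      obtain ⟨a', b', hb', h1⟩ := (hWm w).1 w.2
      have h2 : a * b' = f * (a' * b) := by
        apply Subtype.ext
        change (a : K) * b' = f * (a' * b)
        rw [← hz, ← h1]
        change (f : K) * w * b * b' = f * (w * b' * b)
        ring
      have h3 : a * b' ∈ P := by
        rw [h2]
        exact P.mul_mem_right _ ((hPm f).2 hfπ)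
      exact (hP.mem_or_mem h3).resolve_right hb'
    · intro ha
      obtain ⟨e, he, q, hq⟩ := h5 a ((hPm a).1 ha)
      have he' : e ∉ P := fun h => he ((hPm e).1 h)
      have heb : e * b ∉ P := fun h => (hP.mem_or_mem h).elim he' hb
      refine ⟨⟨q * ((e * b : Q) : K)⁻¹, W.mul_mem (hQW q.2) (hinv _ heb)⟩, Subtype.ext ?_⟩
      change (z : K) = f * (q * ((e * b : Q) : K)⁻¹)
      have h1 : (e : K) * a = f * q := congrArg Subtype.val hq
      have h2 := hne _ heb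
      rw [← mul_assoc, ← h1, ← hz]
      rw [eq_mul_inv_iff_mul_eq₀ h2]
      change (z : K) * (e * b) = e * (z * b)
      ring
  have hprime : Prime f' := by
    refine ⟨fun h => hfc (congrArg Subtype.val h), ?_, ?_⟩
    · intro hu
      have h1 := (hdvd 1 1 1 (fun h => hP.ne_top ((Ideal.eq_top_iff_one P).2 h)) (by
        change (1 : K) * 1 = 1
        rw [mul_one])).1 hu.dvd
      exact hP.ne_top ((Ideal.eq_top_iff_one P).2 h1)
    · intro u v huv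
      obtain ⟨a, b, hb, h1⟩ := (hWm u).1 u.2
      obtain ⟨a', b', hb', h1'⟩ := (hWm v).1 v.2
      have h2 := (hdvd (u * v) (a * a') (b * b') (fun h => (hP.mem_or_mem h).elim hb hb') (by
        change (u : K) * v * (b * b') = a * a'
        rw [← h1, ← h1']; ring)).1 huv
      rcases hP.mem_or_mem h2 with h | h
      · exact Or.inl ((hdvd u a b hb h1).2 h)
      · exact Or.inr ((hdvd v a' b' hb' h1').2 h)
  have hKW : ∀ x : K, ∃ a b : W, b ≠ 0 ∧ x * b = a := by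
    intro x
    obtain ⟨a, b, hb, h1⟩ := hK x
    exact ⟨⟨a, hQW a.2⟩, ⟨b, hQW b.2⟩, fun h =>
      hb (Subtype.ext (congrArg (fun w : W => (w : K)) h : (b : K) = 0)), h1⟩
  have key : ∀ x : K, x ∈ ordRing f' hprime → ∃ a b : Q, π b ≠ 0 ∧ x * b = a := by
    intro x hx
    obtain ⟨u, v, hv, h1⟩ := (mem_ordRing f' hprime).1 hx
    obtain ⟨a, b, hb, h2⟩ := (hWm u).1 u.2
    obtain ⟨a', b', hb', h3⟩ := (hWm v).1 v.2
    have ha' : a' ∉ P := fun h => hv ((hdvd v a' b' hb' h3).2 h)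
    refine ⟨a * b', a' * b, ?_, ?_⟩
    · intro h
      exact (hP.mem_or_mem ((hPm _).2 h)).elim ha' hb
    · change x * (a' * b) = a * b'
      rw [← h3, ← h2, ← h1]
      ring
  rcases ordRing_total f' hprime hKW x with h | h
  · exact Or.inl (key x h)
  · exact Or.inr (key _ h)

theorem cut_aux2 (hloc : S2_loc.{u}) {G : Type} [Fintype G] (g : G → K)
    (Ds : Set (Derivation k K K)) (hgQ : ∀ a, g a ∈ Q ∧ (g a)⁻¹ ∈ Q)
    (hDQ : ∀ D ∈ Ds, ∀ q ∈ Q, D q ∈ Q) (hDg : ∀ D ∈ Ds, ∀ a, ∃ χ : k, D (g a) = χ • g a)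
    [IsNoetherianRing Q] (hK : ∀ x : K, ∃ a b : Q, b ≠ 0 ∧ x * b = a) {ι : Type} [Fintype ι]
    [Nonempty ι] (m : ι → K) (hmQ : ∀ i, m i ∈ Q ∧ (m i)⁻¹ ∈ Q) (c : ι → k) (f : Q)
    (hc : ∀ i, c i ≠ 0) (hf : (f : K) = ∑ i, c i • m i) (hf0 : (f : K) ≠ 0) (hsep : SepD Ds m)
    (π : Q →ₐ[k] L)
    (hπ : RingHom.ker π.toRingHom ∈ (Ideal.span {f}).minimalPrimes) (g' : G → L)
    (hg' : ∀ a (h : g a ∈ Q), g' a = π ⟨g a, h⟩) {T I : Type} [Finite T] [Fintype I]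
    [DecidableEq I] (M : LM (⊥ : Subalgebra k K) ⊤ T I) (Γ : G ⊕ ι → I → ℤ)
    (hFn : Fn M (Sum.elim g m) Γ) (hC : ∀ a b, Cmp M Γ a b) (hLD : ∀ D ∈ Ds, LD M D)
    (B : T → Subalgebra k K) (b : T → K) (hB : Bas Q Ds M B b) :
    (∀ a, π a = 0 → ∃ e, π e ≠ 0 ∧ f ∣ e * a) ∧
    Sta g' π.range {D' | ∃ D ∈ Ds, (∃ χ : k, D f = χ • (f : K)) ∧
      ∀ (q : Q) (h : D q ∈ Q), D' (π q) = π ⟨D q, h⟩} := by
  classical
  have hT := nonempty_T M
  have hFm : Fn M m (Γ ∘ Sum.inr) := hFn.comp Sum.inr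
  have hFg : Fn M g (Γ ∘ Sum.inl) := hFn.comp Sum.inl
  have hg0 : ∀ a, g a ≠ 0 := hFg.ne
  have hm0 : ∀ i, m i ≠ 0 := hFm.ne
  have hAD : AddData M m (Γ ∘ Sum.inr) c (f : K) :=
    { fn := hFm
      cmp := fun a b => hC _ _
      c0 := hc
      hf := hf
      f0 := hf0
      sep := fun i => by
        obtain ⟨D, hD, l, h1, h2⟩ := hsep i
        exact ⟨D, l, hLD D hD, h1, h2⟩ }
  obtain ⟨i0, M2, hi0, hA, hH, hx⟩ := exists_add hAD
  let y : T → K := fun t => (f : K) / m (i0 t)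
  have hS : ∀ t, SNC (M.A t) (fun o : Option I => o.elim (y t) (M.x t)) := by
    intro t
    have := M2.snc t
    rw [hA, hx] at this
    exact this
  have hy : ∀ t, y t ∈ M.A t := by
    intro t
    have := M2.xA t none
    rw [hA, hx] at this
    exact this
  have hy0 : ∀ t, y t ≠ 0 := fun t => div_ne_zero hf0 (hm0 _)
  have hAQ := hB.A
  have hπP : (RingHom.ker π.toRingHom).IsPrime := hπ.1.1
  have hPm : ∀ a, a ∈ RingHom.ker π.toRingHom ↔ π a = 0 := fun a => RingHom.mem_ker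
  have hfπ : π f = 0 := (hPm f).1 (hπ.1.2 (Ideal.mem_span_singleton_self f))
  have hyπ : ∀ t, pq π (y t) = 0 := by
    intro t
    have h1 : y t = (f : K) * (m (i0 t))⁻¹ := div_eq_mul_inv _ _
    rw [h1, pq_mul π f.2 (hmQ _).2, pq_coe, hfπ, zero_mul]
  have hvert : ∀ t (κ : Type u) [Field κ] [Algebra k κ] (φ : M.A t →ₐ[k] κ),
      φ ⟨y t, hy t⟩ = 0 → ∃ δ : TV φ, δ.D ⟨y t, hy t⟩ ≠ 0 ∧
        (∀ c (hc : c ∈ B t), δ.D ⟨c, hB.BA t hc⟩ = 0) ∧
        ∀ i, φ ⟨M.x t i, M.xA t i⟩ = 0 → δ.D ⟨M.x t i, M.xA t i⟩ = 0 := by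
    intro t κ _ _ φ hφ
    exact vert M m _ hFm c hc f hf Ds hLD hsep t (i0 t) (hi0 t) (B t) (hB.BA t)
      (fun D hD => hB.DB D hD t) (hy t) φ hφ
  have hBQ : ∀ t, B t ≤ Q := fun t => (hB.BA t).trans (hAQ t)
  have hXA : ∀ t, ∏ i, M.x t i ∈ M.A t := fun t => (M.A t).prod_mem fun i _ => M.xA t i
  have hX0 : ∀ t, ∏ i, M.x t i ≠ 0 := fun t => Finset.prod_ne_zero_iff.2 fun i _ => M.x0 t i
  have hXi : ∀ t, (∏ i, M.x t i)⁻¹ ∈ Q := fun t => by
    rw [← Finset.prod_inv_distrib]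
    exact Q.prod_mem fun i _ => hB.x t i
  have hXπ : ∀ t, pq π (∏ i, M.x t i) ≠ 0 := fun t => pq_ne π (hX0 t) (hAQ t (hXA t)) (hXi t)
  have hcπ : ∀ t, ∀ c ∈ B t, c ≠ 0 → pq π c ≠ 0 := fun t c hc h0 =>
    pq_ne π h0 (hBQ t hc) (hB.BQ t c hc h0)
  have hmin : ∀ t, RingHom.ker (qm π (M.A t) (hAQ t)) ∈
      (Ideal.span {(⟨y t, hy t⟩ : M.A t)}).minimalPrimes := by
    intro t
    refine ⟨⟨RingHom.ker_isPrime _, ?_⟩, ?_⟩
    · rw [Ideal.span_singleton_le_iff_mem, RingHom.mem_ker, qm_apply π (hAQ t) (hy t)]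
      exact Subtype.ext (hyπ t)
    · rintro P'' ⟨hp'', hle''⟩ hPle ⟨a, ha⟩ haker
      have ha0 : pq π a = 0 := by
        rw [RingHom.mem_ker, qm_apply π (hAQ t) ha] at haker
        exact congrArg Subtype.val haker
      obtain ⟨s, hs, n, hsn⟩ := exists_mul_pow hπ (x := (⟨a, hAQ t ha⟩ : Q))
        ((hPm _).2 (by rw [← pq_of π (hAQ t ha)]; exact ha0))
      obtain ⟨q, hq⟩ := Ideal.mem_span_singleton.1 hsn
      have hq' : (s : K) * a ^ n = f * q := congrArg Subtype.val hq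
      obtain ⟨c1, hc1, N1, hc10, h1⟩ := hB.cof t s s.2
      obtain ⟨c2, hc2, N2, hc20, h2⟩ := hB.cof t (m (i0 t) * q) (Q.mul_mem (hmQ _).1 q.2)
      have hu : c2 * (∏ i, M.x t i) ^ N2 * (c1 * (∏ i, M.x t i) ^ N1 * s) ∈ M.A t :=
        (M.A t).mul_mem ((M.A t).mul_mem (hB.BA t hc2) ((M.A t).pow_mem (hXA t) N2)) h1
      have hv : c1 * (∏ i, M.x t i) ^ N1 * (c2 * (∏ i, M.x t i) ^ N2 * (m (i0 t) * q)) ∈
          M.A t :=
        (M.A t).mul_mem ((M.A t).mul_mem (hB.BA t hc1) ((M.A t).pow_mem (hXA t) N1)) h2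
      have huv : (⟨_, hu⟩ : M.A t) * ⟨a, ha⟩ ^ n = ⟨y t, hy t⟩ * ⟨_, hv⟩ := by
        apply Subtype.ext
        change c2 * (∏ i, M.x t i) ^ N2 * (c1 * (∏ i, M.x t i) ^ N1 * s) * a ^ n =
          (f : K) / m (i0 t) *
            (c1 * (∏ i, M.x t i) ^ N1 * (c2 * (∏ i, M.x t i) ^ N2 * (m (i0 t) * q)))
        have h3 := hm0 (i0 t)
        have h4 : (f : K) / m (i0 t) *
            (c1 * (∏ i, M.x t i) ^ N1 * (c2 * (∏ i, M.x t i) ^ N2 * (m (i0 t) * q))) =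
            c1 * (∏ i, M.x t i) ^ N1 * (c2 * (∏ i, M.x t i) ^ N2) * (f * q) := by
          field_simp
        rw [h4, ← hq']
        ring
      have h3 : (⟨_, hu⟩ : M.A t) * ⟨a, ha⟩ ^ n ∈ P'' := by
        rw [huv]
        exact P''.mul_mem_right _ (hle'' (Ideal.mem_span_singleton_self _))
      rcases hp''.mem_or_mem h3 with h4 | h4
      · exfalso
        have h5 := hPle h4
        rw [RingHom.mem_ker, qm_apply π (hAQ t) hu] at h5
        have h6 : pq π (c2 * (∏ i, M.x t i) ^ N2 * (c1 * (∏ i, M.x t i) ^ N1 * s)) = 0 :=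
          congrArg Subtype.val h5
        have hXQ := hAQ t (hXA t)
        rw [pq_mul π (Q.mul_mem (hBQ t hc2) (Q.pow_mem hXQ N2))
          (Q.mul_mem (Q.mul_mem (hBQ t hc1) (Q.pow_mem hXQ N1)) s.2),
          pq_mul π (hBQ t hc2) (Q.pow_mem hXQ N2),
          pq_mul π (Q.mul_mem (hBQ t hc1) (Q.pow_mem hXQ N1)) s.2,
          pq_mul π (hBQ t hc1) (Q.pow_mem hXQ N1), pq_pow π hXQ, pq_pow π hXQ,
          pq_coe] at h6
        have hs' : π s ≠ 0 := fun h => hs ((hPm s).2 h)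
        exact (mul_ne_zero (mul_ne_zero (hcπ t c2 hc2 hc20) (pow_ne_zero _ (hXπ t)))
          (mul_ne_zero (mul_ne_zero (hcπ t c1 hc1 hc10) (pow_ne_zero _ (hXπ t))) hs')) h6
      · exact hp''.mem_of_pow_mem n h4
  have hv0 : ∀ t (κ : Type u) [Field κ] [Algebra k κ] (φ : M.A t →ₐ[k] κ),
      φ ⟨y t, hy t⟩ = 0 → ∃ D : TV φ, D.D ⟨y t, hy t⟩ ≠ 0 := by
    intro t κ _ _ φ hφ
    obtain ⟨δ, h1, -, -⟩ := hvert t κ φ hφ
    exact ⟨δ, h1⟩
  have hker : ∀ t, LK π (M.A t) (y t) := by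
    intro t m' hm' hPm'
    have hsm := M.sm t
    have hsq : Algebra.Smooth k (M.A t ⧸ Ideal.span {(⟨y t, hy t⟩ : M.A t)}) :=
      smooth_quot _ (hv0 t)
    obtain ⟨e, he, h1⟩ := local_ker hloc (k := k) (⟨y t, hy t⟩ : M.A t)
      (RingHom.ker (qm π (M.A t) (hAQ t))) m' (hmin t) hm' (by
        rintro ⟨a, ha⟩ haker
        rw [RingHom.mem_ker, qm_apply π (hAQ t) ha] at haker
        exact hPm' a ha (congrArg Subtype.val haker))
    refine ⟨e, he, fun a ha h0 => ?_⟩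
    obtain ⟨b', hb'⟩ := h1 ⟨a, ha⟩ (by
      rw [RingHom.mem_ker, qm_apply π (hAQ t) ha]
      exact Subtype.ext h0)
    have h2 : (e : K) * a = y t * b' := congrArg Subtype.val hb'
    rw [h2, mul_div_cancel_left₀ _ (hy0 t)]
    exact b'.2
  have h5 : ∀ a, π a = 0 → ∃ e, π e ≠ 0 ∧ f ∣ e * a := by
    intro a ha
    obtain ⟨t⟩ := hT
    have hXQ := hAQ t (hXA t)
    obtain ⟨c1, hc1, N, hc10, h1⟩ := hB.cof t a a.2
    have hcX : c1 * (∏ i, M.x t i) ^ N ∈ Q := Q.mul_mem (hBQ t hc1) (Q.pow_mem hXQ N)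
    have h2 : pq π (c1 * (∏ i, M.x t i) ^ N * a) = 0 := by
      rw [pq_mul π hcX a.2, pq_coe, ha, mul_zero]
    obtain ⟨e, he, h3⟩ := hker t (RingHom.ker (qm π (M.A t) (hAQ t))) (RingHom.ker_isPrime _)
      (fun a ha h0 => by
        rw [RingHom.mem_ker, qm_apply π (hAQ t) ha]
        exact Subtype.ext h0)
    have h4 := h3 _ h1 h2
    have heπ : pq π e ≠ 0 := by
      intro h0
      apply he
      obtain ⟨e, he'⟩ := e
      rw [RingHom.mem_ker, qm_apply π (hAQ t) he']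
      exact Subtype.ext h0
    refine ⟨⟨e * (c1 * (∏ i, M.x t i) ^ N), Q.mul_mem (hAQ t e.2) hcX⟩, ?_,
      ⟨(m (i0 t))⁻¹ * (e * (c1 * (∏ i, M.x t i) ^ N * a) / y t),
        Q.mul_mem (hmQ _).2 (hAQ t h4)⟩, ?_⟩
    · rw [← pq_of π, pq_mul π (hAQ t e.2) hcX, pq_mul π (hBQ t hc1) (Q.pow_mem hXQ N),
        pq_pow π hXQ]
      exact mul_ne_zero heπ (mul_ne_zero (hcπ t c1 hc1 hc10) (pow_ne_zero _ (hXπ t)))
    · apply Subtype.ext
      change (e : K) * (c1 * (∏ i, M.x t i) ^ N) * a = (f : K) * ((m (i0 t))⁻¹ *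
        (e * (c1 * (∏ i, M.x t i) ^ N * a) / ((f : K) / m (i0 t))))
      have h6 := hm0 (i0 t)
      field_simp
  have hK' := total hK π f (fun h => hf0 (by rw [h]; rfl)) hfπ h5
  have hsm' : ∀ t, Algebra.Smooth k (im π (M.A t) (hAQ t)) := by
    intro t
    have := M.sm t
    exact smooth_im2 π hloc (hAQ t) (hy t) (hyπ t) (hmin t) (hv0 t)
  refine ⟨h5, ?_⟩
  obtain ⟨M', hA', hx'⟩ := exists_model2 π hK' M hAQ hB.x y hy hy0 hyπ hker hsm' hS
  have hgp : ∀ a, g' a = pq π (g a) := fun a => by rw [hg' a (hgQ a).1, pq_of π (hgQ a).1]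
  have hD' : ∀ D ∈ Ds, ∀ D' : Derivation k L L,
      (∀ (q : Q) (h : D q ∈ Q), D' (π q) = π ⟨D q, h⟩) →
      ∀ q ∈ Q, D' (pq π q) = pq π (D q) := by
    intro D hD D' h q hq
    rw [pq_of π hq, pq_of π (hDQ D hD q hq)]
    exact h ⟨q, hq⟩ (hDQ D hD q hq)
  have hmem : ∀ z, z ∈ π.range ↔ ∃ q ∈ Q, pq π q = z := by
    intro z
    constructor
    · rintro ⟨q, rfl⟩
      exact ⟨q, q.2, pq_coe π q⟩
    · rintro ⟨q, hq, rfl⟩
      rw [pq_of π hq]
      exact ⟨⟨q, hq⟩, rfl⟩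
  refine ⟨?_, ?_, ?_, T, I, inferInstance, inferInstance, inferInstance, M',
    fun a => Γ (Sum.inl a), fun t => im π (B t) (hBQ t), fun t => pq π (b t), ?_, ?_, ?_⟩
  · intro a
    rw [hgp a, ← pq_inv π (hg0 a) (hgQ a).1 (hgQ a).2]
    exact ⟨(hmem _).2 ⟨_, (hgQ a).1, rfl⟩, (hmem _).2 ⟨_, (hgQ a).2, rfl⟩⟩
  · rintro D' ⟨D, hD, hχ, h⟩ z hz
    obtain ⟨q, hq, rfl⟩ := (hmem z).1 hz
    rw [hD' D hD D' h q hq]
    exact (hmem _).2 ⟨_, hDQ D hD q hq, rfl⟩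
  · rintro D' ⟨D, hD, hχ, h⟩ a
    obtain ⟨χ, hχ⟩ := hDg D hD a
    refine ⟨χ, ?_⟩
    rw [hgp a, hD' D hD D' h _ (hgQ a).1, hχ, pq_of π (Q.smul_mem (hgQ a).1 χ),
      pq_of π (hgQ a).1, ← map_smul]
    rfl
  · intro a t
    obtain ⟨w, h0, h1, h2, h3⟩ := hFn (Sum.inl a) t
    rw [hA', hx']
    refine ⟨pq π w, pq_ne π h0 (hAQ t h1) (hAQ t h2), pq_mem π (hAQ t) h1, ?_, ?_⟩
    · rw [← pq_inv π h0 (hAQ t h1) (hAQ t h2)]
      exact pq_mem π (hAQ t) h2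
    · have h4 : ∀ i, M.x t i ^ Γ (Sum.inl a) i ∈ Q := fun i =>
        zpow_mem_of (hAQ t (M.xA t i)) (Or.inr (hB.x t i))
      have h5 : g a = w * ∏ i, M.x t i ^ Γ (Sum.inl a) i := h3
      rw [hgp a, h5, pq_mul π (hAQ t h1) (Q.prod_mem fun i _ => h4 i),
        pq_prod π _ _ fun i _ => h4 i]
      congr 1
      refine Finset.prod_congr rfl fun i _ => ?_
      exact pq_zpow π (M.x0 t i) (hAQ t (M.xA t i)) (hB.x t i) _
  · rintro D' ⟨D, hD, hχ, h⟩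
    have h1 := hLD D hD
    constructor
    · rw [hA']
      intro t z hz
      obtain ⟨a, ha, rfl⟩ := (mem_im π).1 hz
      rw [hD' D hD D' h a (hAQ t ha)]
      exact pq_mem π (hAQ t) (h1.dA t a ha)
    · rw [hA', hx']
      intro t i
      have hxi := M.xA t i
      change D' (pq π (M.x t i)) / pq π (M.x t i) ∈ im π (M.A t) (hAQ t)
      rw [hD' D hD D' h _ (hAQ t hxi), ← pq_div π (hAQ t (h1.dA t _ hxi)) (M.x0 t i)
        (hAQ t hxi) (hB.x t i)]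
      exact pq_mem π (hAQ t) (h1.dx t i)
  · have hprodQ : ∀ t, ∏ i, M.x t i ∈ Q := fun t => Q.prod_mem fun i _ => hAQ t (M.xA t i)
    have hprodeq : ∀ t (N : ℕ), (∏ i, pq π (M.x t i)) ^ N = pq π ((∏ i, M.x t i) ^ N) := by
      intro t N
      rw [pq_pow π (hprodQ t), pq_prod π _ _ fun i _ => hAQ t (M.xA t i)]
    refine { A := ?_, x := ?_, BA := ?_, ft := ?_, bB := ?_, b0 := ?_, DB := ?_, BQ := ?_,
             cof := ?_, bx := ?_, sub := ?_ }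
    · rw [hA']
      intro t z hz
      obtain ⟨a, ha, rfl⟩ := (mem_im π).1 hz
      exact (hmem _).2 ⟨a, hAQ t ha, rfl⟩
    · rw [hx']
      intro t i
      rw [← pq_inv π (M.x0 t i) (hAQ t (M.xA t i)) (hB.x t i)]
      exact (hmem _).2 ⟨_, hB.x t i, rfl⟩
    · rw [hA']
      intro t z hz
      obtain ⟨a, ha, rfl⟩ := (mem_im π).1 hz
      exact pq_mem π (hAQ t) (hB.BA t ha)
    · intro t
      have := hB.ft t
      exact Algebra.FiniteType.of_surjective (qm π (B t) (hBQ t)) (qm_surj π (B t) (hBQ t))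
    · intro t
      exact pq_mem π (hBQ t) (hB.bB t)
    · intro t
      exact pq_ne π (hB.b0 t) (hBQ t (hB.bB t)) (hB.BQ t _ (hB.bB t) (hB.b0 t))
    · rintro D' ⟨D, hD, hχ, h⟩ t z hz
      obtain ⟨a, ha, rfl⟩ := (mem_im π).1 hz
      rw [hD' D hD D' h a (hBQ t ha), hB.DB D hD t a ha, pq_zero]
    · intro t z hz hz0
      obtain ⟨a, ha, rfl⟩ := (mem_im π).1 hz
      have ha0 : a ≠ 0 := by
        rintro rfl
        exact hz0 (pq_zero π)
      rw [← pq_inv π ha0 (hBQ t ha) (hB.BQ t a ha ha0)]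
      exact (hmem _).2 ⟨_, hB.BQ t a ha ha0, rfl⟩
    · rw [hA', hx']
      intro t z hz
      obtain ⟨q, hq, rfl⟩ := (hmem z).1 hz
      obtain ⟨c', hc', N, hc0, hcN⟩ := hB.cof t q hq
      refine ⟨pq π c', pq_mem π (hBQ t) hc', N,
        pq_ne π hc0 (hBQ t hc') (hB.BQ t c' hc' hc0), ?_⟩
      change pq π c' * (∏ i, pq π (M.x t i)) ^ N * pq π q ∈ im π (M.A t) (hAQ t)
      rw [hprodeq, ← pq_mul π (hBQ t hc') (Q.pow_mem (hprodQ t) N),
        ← pq_mul π (Q.mul_mem (hBQ t hc') (Q.pow_mem (hprodQ t) N)) hq]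
      exact pq_mem π (hAQ t) hcN
    · rw [hA', hx']
      intro t
      obtain ⟨N, hN⟩ := hB.bx t
      refine ⟨N, ?_⟩
      change (∏ i, pq π (M.x t i)) ^ N / pq π (b t) ∈ im π (M.A t) (hAQ t)
      rw [hprodeq, ← pq_div π (Q.pow_mem (hprodQ t) N) (hB.b0 t) (hBQ t (hB.bB t))
        (hB.BQ t _ (hB.bB t) (hB.b0 t))]
      exact pq_mem π (hAQ t) hN
    · intro t κ _ _ φ' φ0' h1 h2 D0
      exact sub_aux2 π (hAQ t) (hB.BA t) (M.xA t) (hy t) (hy0 t) (hyπ t) (hB.bB t) (hker t)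
        (hvert t) (hB.sub t) _ (congrFun hA' t) _ rfl _ (congrFun hx' t) (M'.xA t) _ rfl
        (pq_mem π (hBQ t) (hB.bB t)) _ φ' φ0' h1 h2 D0

end aux

/-- **CUT2**: restriction of a stage to a component of the divisor of a function. -/
theorem main (hloc : S2_loc.{u}) (hprinc : S2_princ.{u}) : S2_cut2.{u} := by
  intro k K L _ _ _ _ _ _ G _ g Q Ds hst hNoeth hK ι _ _ e c f hc hf hf0 hsep π hπ hπL g' hg'
  classical
  obtain ⟨hgQ, hDQ, hDg, T, I, i1, i2, i3, M, Γ, B, b, hFn, hLD, hB⟩ := hst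
  obtain ⟨T1, I1, j1, j2, j3, M1, Γ1, ⟨hE, hE3⟩, hC⟩ := hprinc k K T I (G ⊕ ι) M
    (Sum.elim g fun i => ∏ a, g a ^ e i a)
    (Sum.elim Γ fun i l => ∑ b, e i b * Γ b l)
  obtain ⟨B1, b1, hB1⟩ := hE3 Q Ds B b hB
  have hFn1 := hE.fn (by
    rintro (a | i)
    · exact hFn a
    · exact fn_mono hFn e i)
  have hmQ : ∀ i, (∏ a, g a ^ e i a) ∈ Q ∧ (∏ a, g a ^ e i a)⁻¹ ∈ Q := by
    intro i
    constructor
    · exact Q.prod_mem fun a _ => zpow_mem_of (hgQ a).1 (Or.inr (hgQ a).2)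
    · rw [← Finset.prod_inv_distrib]
      refine Q.prod_mem fun a _ => ?_
      rw [← zpow_neg]
      exact zpow_mem_of (hgQ a).1 (Or.inr (hgQ a).2)
  exact cut_aux2 hloc g Ds hgQ hDQ hDg hK (fun i => ∏ a, g a ^ e i a) hmQ c f hc hf hf0 hsep π
    hπ g' hg' M1 Γ1 hFn1 hC (fun D hD => hE.ld D (hLD D hD)) B1 b1 hB1

end Pool.Agent.W973.CUT2
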