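import Pool.Agent.H59.L.S8.W558.S.Stms

/-! Finiteness of points on a curve where a function vanishes, and of curves where a function
vanishes. -/

set_option autoImplicit false
set_option linter.unusedVariables false

universe u

open Polynomial Pool.Agent.W558

namespace Pool.Agent.W973.FIN

variable {k E : Type u} [Field k] [Field E] [Algebra k E] {A W W' O : Subalgebra k E}

/-- The prime ideal of a prime divisor. -/
def pr (h : IsDv A W) : Ideal A where
  carrier := {a | NU W a}
  add_mem' := fun {a b} ha hb => h.loc _ _ ha hb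
  zero_mem' := NU.zero
  smul_mem' := fun c a ha => by
    change NU W (c * a)
    exact NU.mul_left ha (h.le c.2)

theorem mem_pr (h : IsDv A W) {a : A} : a ∈ pr h ↔ NU W a := Iff.rfl

theorem pr_prime (h : IsDv A W) : (pr h).IsPrime where
  ne_top' := by
    intro h1
    have h2 : (1 : A) ∈ pr h := by rw [h1]; trivial
    exact not_NU_one h2
  mem_or_mem' := by
    intro a b hab
    exact (NU_mul_iff (h.le a.2) (h.le b.2)).1 hab

theorem pr_ne_bot (h : IsDv A W) : pr h ≠ ⊥ := by
  obtain ⟨y, hy, hy0, h1⟩ := h.nt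
  intro h2
  have h3 : (⟨y, hy⟩ : A) ∈ pr h := h1
  rw [h2, Ideal.mem_bot] at h3
  exact hy0 (congrArg Subtype.val h3)

theorem coe_aeval (a : A) (P : k[X]) : aeval (a : E) P = ((aeval a P : A) : E) :=
  Polynomial.aeval_algHom_apply A.val a P

theorem pr_not_max (hA : Algebra.FiniteType k A) (h : IsDv A W) : ¬ (pr h).IsMaximal := by
  intro hm
  let _ : Field (A ⧸ pr h) := Ideal.Quotient.field (pr h)
  have hfin : Module.Finite k (A ⧸ pr h) := finite_of_finite_type_of_isJacobsonRing k (A ⧸ pr h)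
  obtain ⟨a, ha, h1⟩ := h.tr
  obtain ⟨P, hP, hP1⟩ := Algebra.IsAlgebraic.isAlgebraic (R := k)
    (Ideal.Quotient.mk (pr h) ⟨a, ha⟩)
  apply h1 P hP
  have h2 : aeval (⟨a, ha⟩ : A) P ∈ pr h := by
    rw [← Ideal.Quotient.eq_zero_iff_mem]
    have := Polynomial.aeval_algHom_apply (Ideal.Quotient.mkₐ k (pr h)) ⟨a, ha⟩ P
    rw [← hP1]
    exact this.symm
  have h3 := (mem_pr h).1 h2
  rw [← coe_aeval] at h3
  exact h3

theorem finType (hA : Sf A) : Algebra.FiniteType k A := by
  have := hA.sm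
  infer_instance

theorem eq_of_pr (h : IsDv A W) (h' : IsDv A W') (h1 : ∀ a ∈ A, NU W a ↔ NU W' a) : W = W' := by
  have key : ∀ {W W' : Subalgebra k E}, IsDv A W → IsDv A W' →
      (∀ a ∈ A, NU W a ↔ NU W' a) → W ≤ W' := by
    intro W W' h h' h1 x hx
    obtain ⟨a, ha, b, hb, hb0, hbi, rfl⟩ := h.frac x hx
    have h2 : ¬ NU W' b := fun h3 => not_NU_of_inv hb0 hbi ((h1 b hb).2 h3)
    exact W'.mul_mem (h'.le ha) ((not_NU_iff (h'.le hb)).1 h2).2
  exact le_antisymm (key h h' h1) (key h' h fun a ha => (h1 a ha).symm)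

theorem eq_of_le (hch : S_chain.{u}) (htr : Algebra.trdeg k E = 2) (hA : Sf A) (h : IsDv A W)
    (h' : IsDv A W') (h1 : ∀ a ∈ A, NU W a → NU W' a) : W = W' := by
  have hle : pr h ≤ pr h' := fun a ha => h1 a a.2 ha
  have heq : pr h = pr h' := by
    by_contra hne
    exact pr_not_max (finType hA) h' (hch k E htr A hA _ _ (pr_prime h) (pr_prime h')
      (pr_ne_bot h) (lt_of_le_of_ne hle hne))
  refine eq_of_pr h h' fun a ha => ?_
  have : (⟨a, ha⟩ : A) ∈ pr h ↔ (⟨a, ha⟩ : A) ∈ pr h' := by rw [heq]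
  exact this

/-- An element which is transcendental modulo a prime which is not maximal. -/
theorem exists_tr {q : Ideal A} (hq : q.IsPrime) (hm : ¬ q.IsMaximal) :
    ∃ a : A, ∀ P : k[X], P ≠ 0 → aeval a P ∉ q := by
  by_contra hcon
  push Not at hcon
  apply hm
  have halg : Algebra.IsAlgebraic k (A ⧸ q) := by
    refine ⟨fun y => ?_⟩
    obtain ⟨a, rfl⟩ := Ideal.Quotient.mk_surjective y
    obtain ⟨P, hP, h1⟩ := hcon a
    refine ⟨P, hP, ?_⟩
    have h2 := Polynomial.aeval_algHom_apply (Ideal.Quotient.mkₐ k q) a P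
    refine h2.trans ?_
    exact Ideal.Quotient.eq_zero_iff_mem.2 h1
  have hint : Algebra.IsIntegral k (A ⧸ q) := Algebra.IsAlgebraic.isIntegral
  exact Ideal.Quotient.maximal_of_isField q
    (isField_of_isIntegral_of_isField' (R := k) (Field.toIsField k))

theorem isDv_locAt {q : Ideal A} (hq : q.IsPrime) (h0 : q ≠ ⊥) (hm : ¬ q.IsMaximal) :
    IsDv A (locAt A q hq) := by
  have hNU : ∀ x, NU (locAt A q hq) x ↔ ∃ a b : A, a ∈ q ∧ b ∉ q ∧ x * b = a := by
    intro x
    constructor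
    · intro h
      obtain ⟨a, b, hb, h1⟩ := h.1
      refine ⟨a, b, ?_, hb, h1⟩
      rw [← NU_locAt (hq := hq), ← h1]
      exact h.mul_right (le_locAt b.2)
    · rintro ⟨a, b, ha, hb, h1⟩
      have h2 : x = a * (b : E)⁻¹ := by
        have := coe_ne_zero_of_notMem hb
        rw [← h1]; field_simp
      rw [h2]
      exact (NU_locAt.2 ha).mul_right (inv_mem_locAt hb)
  refine ⟨le_locAt, ?_, ?_, ?_, ?_⟩
  · rintro x ⟨a, b, hb, h1⟩
    have hb0 := coe_ne_zero_of_notMem hb
    refine ⟨a, a.2, b, b.2, hb0, inv_mem_locAt hb, ?_⟩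
    rw [← h1]; field_simp
  · intro x y hx hy
    obtain ⟨a, b, ha, hb, h1⟩ := (hNU x).1 hx
    obtain ⟨a', b', ha', hb', h2⟩ := (hNU y).1 hy
    refine (hNU _).2 ⟨a * b' + a' * b, b * b', ?_, fun h => (hq.mem_or_mem h).elim hb hb', ?_⟩
    · exact q.add_mem (q.mul_mem_right _ ha) (q.mul_mem_right _ ha')
    · push_cast
      rw [← h1, ← h2]; ring
  · obtain ⟨y, hy, hy0⟩ := Submodule.exists_mem_ne_zero_of_ne_bot h0
    exact ⟨y, y.2, fun h => hy0 (Subtype.ext h), NU_locAt.2 hy⟩
  · obtain ⟨a, ha⟩ := exists_tr (k := k) hq hm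
    refine ⟨a, a.2, fun P hP h1 => ha P hP ?_⟩
    rw [coe_aeval] at h1
    exact NU_locAt.1 h1

theorem main.{v} (hchain : S_chain.{v}) : S_fin.{v} := by
  intro k E _ _ _ htr A hA
  have hft := finType hA
  have hN : IsNoetherianRing A := Algebra.FiniteType.isNoetherianRing k A
  refine ⟨?_, ?_, ?_, ?_⟩
  · intro W hW f hf hnf
    set I : Ideal A := pr hW ⊔ Ideal.span {⟨f, hf⟩} with hI
    refine Set.Finite.of_injOn (f := fun O : Subalgebra k E => ({a : A | NU O a} : Set A))
      (t := (fun q : Ideal A => (q : Set A)) '' I.minimalPrimes) ?_ ?_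
      ((Ideal.finite_minimalPrimes_of_isNoetherianRing A I).image _)
    · rintro O ⟨hO, hOW, hOf⟩
      refine ⟨hO.mx, ⟨⟨hO.isMaximal.isPrime, ?_⟩, ?_⟩, rfl⟩
      · refine sup_le ?_ ?_
        · intro a ha
          by_contra hna
          have h1 := (not_NU_iff (hO.le a.2)).1 hna
          exact not_NU_of_inv h1.1 (hOW h1.2) ha
        · rw [Ideal.span_singleton_le_iff_mem]
          exact hOf
      · rintro q ⟨hq, hIq⟩ hqO
        have h1 : pr hW < q := by
          refine lt_of_le_of_ne (le_sup_left.trans hIq) ?_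
          intro heq
          apply hnf
          have h2 : (⟨f, hf⟩ : A) ∈ q := hIq (le_sup_right (a := pr hW)
            (Ideal.mem_span_singleton_self _))
          rw [← heq] at h2
          exact h2
        have h2 := hchain k E htr A hA _ _ (pr_prime hW) hq (pr_ne_bot hW) h1
        exact (h2.eq_of_le hO.isMaximal.ne_top hqO).ge
    · rintro O ⟨hO, -, -⟩ O' ⟨hO', -, -⟩ heq
      refine hO.eq_of_mx hO' fun a ha h1 => ?_
      have h2 : (⟨a, ha⟩ : A) ∈ ({a : A | NU O a} : Set A) := h1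
      have heq' : ({a : A | NU O a} : Set A) = {a : A | NU O' a} := heq
      rw [heq'] at h2
      exact h2
  · intro f hf hf0
    refine Set.Finite.of_injOn (f := fun O : Subalgebra k E => ({a : A | NU O a} : Set A))
      (t := (fun q : Ideal A => (q : Set A)) '' (Ideal.span {(⟨f, hf⟩ : A)}).minimalPrimes) ?_ ?_
      ((Ideal.finite_minimalPrimes_of_isNoetherianRing A _).image _)
    · rintro W ⟨hW, hWf⟩
      refine ⟨pr hW, ⟨⟨pr_prime hW, ?_⟩, ?_⟩, rfl⟩
      · rw [Ideal.span_singleton_le_iff_mem]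
        exact hWf
      · rintro q ⟨hq, hIq⟩ hqW
        by_contra hne
        have h1 : q < pr hW := lt_of_le_not_ge hqW hne
        have h0 : q ≠ ⊥ := by
          intro h2
          rw [Ideal.span_singleton_le_iff_mem, h2, Ideal.mem_bot] at hIq
          exact hf0 (congrArg Subtype.val hIq)
        exact pr_not_max hft hW (hchain k E htr A hA _ _ hq (pr_prime hW) h0 h1)
    · rintro W ⟨hW, -⟩ W' ⟨hW', -⟩ heq
      refine eq_of_pr hW hW' fun a ha => ?_
      have heq' : ({a : A | NU W a} : Set A) = {a : A | NU W' a} := heq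
      have h2 : (⟨a, ha⟩ : A) ∈ ({a : A | NU W a} : Set A) ↔
        (⟨a, ha⟩ : A) ∈ ({a : A | NU W' a} : Set A) := by rw [heq']
      exact h2
  · intro q hq h0 hm
    exact isDv_locAt hq h0 hm
  · intro W W' hW hW' h1
    exact eq_of_le hchain htr hA hW hW' h1

end Pool.Agent.W973.FIN
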