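import Pool.Agent.H59.L.S8.W558.S.Stms

/-! Abstract termination (a finite set of bad elements with labels in a well-founded order). -/

set_option autoImplicit false

namespace Pool.Agent.W973.TERM

theorem main.{a, b, c} : Pool.Agent.W558.S_term.{a, b, c} := by
  classical
  intro σ α β le Bad l r P hrefl htrans hwf hfin hstep
  have key : ∀ M : Multiset β, ∀ s (hs : P s), (hfin s hs).toFinset.val.map (l s) ≤ M →
      ∃ s', le s s' ∧ P s' ∧ Bad s' = ∅ := by
    intro M
    induction M using hwf.cutExpand.induction with
    | _ M ih =>
      intro s hs hM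
      rcases (Bad s).eq_empty_or_nonempty with h0 | ⟨a, ha⟩
      · exact ⟨s, hrefl s, hs, h0⟩
      obtain ⟨s1, h1, hs1, h2⟩ := hstep s hs a ha
      set B := (hfin s hs).toFinset.val with hB
      set B' := (hfin s1 hs1).toFinset.val with hB'
      have haB : a ∈ B := by
        rw [hB, Finset.mem_val, Set.Finite.mem_toFinset]; exact ha
      have hnd' : B'.Nodup := (hfin s1 hs1).toFinset.nodup
      have hnd : B.Nodup := (hfin s hs).toFinset.nodup
      set p : α → Prop := fun a' => a' ∈ Bad s ∧ a' ≠ a ∧ l s1 a' = l s a' with hp
      have hKR : B'.filter p + B'.filter (fun a' => ¬ p a') = B' := Multiset.filter_add_not p B'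
      have hKB : B'.filter p ≤ B.erase a := by
        rw [Multiset.le_iff_subset (hnd'.filter p)]
        intro x hx
        rw [Multiset.mem_filter] at hx
        rw [hnd.mem_erase_iff]
        refine ⟨hx.2.2.1, ?_⟩
        rw [hB, Finset.mem_val, Set.Finite.mem_toFinset]
        exact hx.2.1
      have hKl : (B'.filter p).map (l s1) = (B'.filter p).map (l s) := by
        apply Multiset.map_congr rfl
        intro x hx
        rw [Multiset.mem_filter] at hx
        exact hx.2.2.2
      have hBa : B.map (l s) = l s a ::ₘ (B.erase a).map (l s) := by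
        rw [← Multiset.map_cons, Multiset.cons_erase haB]
      have hxM : l s a ∈ M := Multiset.mem_of_le hM (Multiset.mem_map_of_mem _ haB)
      have h3 : (B.erase a).map (l s) ≤ M.erase (l s a) := by
        rw [← Multiset.cons_le_cons_iff (l s a), Multiset.cons_erase hxM, ← hBa]
        exact hM
      have hlt : Relation.CutExpand r
          (M.erase (l s a) + (B'.filter (fun a' => ¬ p a')).map (l s1)) M := by
        refine ⟨(B'.filter (fun a' => ¬ p a')).map (l s1), l s a, ?_, ?_⟩
        · intro x hx
          rw [Multiset.mem_map] at hx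
          obtain ⟨y, hy, rfl⟩ := hx
          rw [Multiset.mem_filter, hB', Finset.mem_val, Set.Finite.mem_toFinset] at hy
          exact (h2 y hy.1).resolve_left hy.2
        · rw [add_right_comm, add_comm (M.erase (l s a)), Multiset.singleton_add,
            Multiset.cons_erase hxM]
      have hle : B'.map (l s1) ≤
          M.erase (l s a) + (B'.filter (fun a' => ¬ p a')).map (l s1) := by
        have h4 : B'.map (l s1) = (B'.filter p).map (l s1) +
            (B'.filter (fun a' => ¬ p a')).map (l s1) := by
          rw [← Multiset.map_add, hKR]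
        rw [h4, hKl]
        exact add_le_add (le_trans (Multiset.map_le_map hKB) h3) le_rfl
      obtain ⟨s2, h4, h5, h6⟩ := ih _ hlt s1 hs1 hle
      exact ⟨s2, htrans _ _ _ h1 h4, h5, h6⟩
  intro s hs
  exact key _ s hs le_rfl

end Pool.Agent.W973.TERM
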