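import Pool.Agent.H59.L.S8.W558.S2.Stms2
import Pool.Agent.H59.L.S8.W558.Red
import Pool.Agent.H59.L.S8.W558.Extract

/-!
# Restriction of a stage to the divisor of a function
-/

set_option autoImplicit false
set_option linter.unusedVariables false
set_option linter.unusedSectionVars false

universe u

open Polynomial

namespace Pool.Agent.W973.CUT

open Pool.Agent.W558

section pq

variable {k K L : Type u} [Field k] [Field K] [Algebra k K] [Field L] [Algebra k L]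
  {Q : Subalgebra k K} (π : Q →ₐ[k] L)

open Classical in
/-- The extension of `π` by zero. -/
noncomputable def pq (x : K) : L := if h : x ∈ Q then π ⟨x, h⟩ else 0

lemma pq_of {x : K} (h : x ∈ Q) : pq π x = π ⟨x, h⟩ := dif_pos h

lemma pq_coe (x : Q) : pq π (x : K) = π x := pq_of π x.2

lemma pq_mul {x y : K} (hx : x ∈ Q) (hy : y ∈ Q) : pq π (x * y) = pq π x * pq π y := by
  rw [pq_of π hx, pq_of π hy, pq_of π (Q.mul_mem hx hy), ← map_mul]
  rfl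

lemma pq_add {x y : K} (hx : x ∈ Q) (hy : y ∈ Q) : pq π (x + y) = pq π x + pq π y := by
  rw [pq_of π hx, pq_of π hy, pq_of π (Q.add_mem hx hy), ← map_add]
  rfl

lemma pq_one : pq π 1 = 1 := by
  rw [pq_of π Q.one_mem]
  exact map_one π

lemma pq_zero : pq π 0 = 0 := by
  rw [pq_of π Q.zero_mem]
  exact map_zero π

lemma pq_mul_inv {x : K} (h0 : x ≠ 0) (hx : x ∈ Q) (hx' : x⁻¹ ∈ Q) :
    pq π x * pq π x⁻¹ = 1 := by
  rw [← pq_mul π hx hx', mul_inv_cancel₀ h0, pq_one]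

lemma pq_ne {x : K} (h0 : x ≠ 0) (hx : x ∈ Q) (hx' : x⁻¹ ∈ Q) : pq π x ≠ 0 :=
  left_ne_zero_of_mul_eq_one (pq_mul_inv π h0 hx hx')

lemma pq_inv {x : K} (h0 : x ≠ 0) (hx : x ∈ Q) (hx' : x⁻¹ ∈ Q) :
    pq π x⁻¹ = (pq π x)⁻¹ :=
  eq_inv_of_mul_eq_one_right (pq_mul_inv π h0 hx hx')

lemma pq_div {x y : K} (hx : x ∈ Q) (h0 : y ≠ 0) (hy : y ∈ Q) (hy' : y⁻¹ ∈ Q) :
    pq π (x / y) = pq π x / pq π y := by
  rw [div_eq_mul_inv, pq_mul π hx hy', pq_inv π h0 hy hy', div_eq_mul_inv]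

lemma pq_pow {x : K} (hx : x ∈ Q) (n : ℕ) : pq π (x ^ n) = pq π x ^ n := by
  rw [pq_of π hx, pq_of π (Q.pow_mem hx n), ← map_pow]
  rfl

lemma pq_zpow {x : K} (h0 : x ≠ 0) (hx : x ∈ Q) (hx' : x⁻¹ ∈ Q) (n : ℤ) :
    pq π (x ^ n) = pq π x ^ n := by
  rcases le_or_gt 0 n with h | h
  · obtain ⟨m, rfl⟩ := Int.eq_ofNat_of_zero_le h
    rw [zpow_natCast, zpow_natCast, pq_pow π hx]
  · obtain ⟨m, hm⟩ := Int.eq_ofNat_of_zero_le (show 0 ≤ -n by omega)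
    have h2 : n = -(m : ℤ) := by omega
    rw [h2, zpow_neg, zpow_neg, zpow_natCast, zpow_natCast, ← inv_pow, ← inv_pow,
      pq_pow π hx', pq_inv π h0 hx hx']

lemma pq_prod {J : Type} (s : Finset J) (h : J → K) (hh : ∀ i ∈ s, h i ∈ Q) :
    pq π (∏ i ∈ s, h i) = ∏ i ∈ s, pq π (h i) := by
  classical
  induction s using Finset.induction_on with
  | empty => simp [pq_one]
  | insert b s hb ih =>
    rw [Finset.prod_insert hb, Finset.prod_insert hb,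
      pq_mul π (hh b (Finset.mem_insert_self b s))
        (Q.prod_mem fun i hi => hh i (Finset.mem_insert_of_mem hi)),
      ih fun i hi => hh i (Finset.mem_insert_of_mem hi)]

/-- The image of a subalgebra. -/
def im (A : Subalgebra k K) (h : A ≤ Q) : Subalgebra k L :=
  (π.comp (Subalgebra.inclusion h)).range

/-- The map to the image. -/
def qm (A : Subalgebra k K) (h : A ≤ Q) : A →ₐ[k] im π A h :=
  (π.comp (Subalgebra.inclusion h)).rangeRestrict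

lemma qm_surj (A : Subalgebra k K) (h : A ≤ Q) : Function.Surjective (qm π A h) :=
  (π.comp (Subalgebra.inclusion h)).rangeRestrict_surjective

lemma pq_mem {A : Subalgebra k K} (h : A ≤ Q) {a : K} (ha : a ∈ A) : pq π a ∈ im π A h :=
  ⟨⟨a, ha⟩, (pq_of π (h ha)).symm⟩

lemma qm_apply {A : Subalgebra k K} (h : A ≤ Q) {a : K} (ha : a ∈ A) :
    qm π A h ⟨a, ha⟩ = ⟨pq π a, pq_mem π h ha⟩ :=
  Subtype.ext (pq_of π (h ha)).symm

lemma mem_im {A : Subalgebra k K} {h : A ≤ Q} {z : L} :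
    z ∈ im π A h ↔ ∃ a ∈ A, pq π a = z := by
  constructor
  · rintro ⟨a, rfl⟩
    exact ⟨a, a.2, pq_of π (h a.2)⟩
  · rintro ⟨a, ha, rfl⟩
    exact pq_mem π h ha

/-- Descent of tangent vectors. -/
lemma desc {A : Subalgebra k K} (h : A ≤ Q) {y : K} (hy : y ∈ A) (hy0 : y ≠ 0)
    (hyπ : pq π y = 0) (hker : ∀ a ∈ A, pq π a = 0 → a / y ∈ A) {κ : Type u} [Field κ]
    [Algebra k κ] (φ' : im π A h →ₐ[k] κ) (D : TV (φ'.comp (qm π A h)))
    (hD : D.D ⟨y, hy⟩ = 0) :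
    ∃ E : TV φ', ∀ a (ha : a ∈ A), E.D ⟨pq π a, pq_mem π h ha⟩ = D.D ⟨a, ha⟩ := by
  obtain ⟨E, hE⟩ := TV.desc (qm π A h) (qm_surj π A h) φ' (fun a => rfl) D (by
    rintro ⟨a, ha⟩ h0
    have h1 : pq π a = 0 := by
      rw [qm_apply π h ha] at h0
      exact congrArg Subtype.val h0
    have h2 := hker a ha h1
    have h3 : (⟨a, ha⟩ : A) ∈ Ideal.span {(⟨y, hy⟩ : A)} := by
      rw [Ideal.mem_span_singleton]
      refine ⟨⟨a / y, h2⟩, Subtype.ext ?_⟩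
      change a = y * (a / y)
      rw [mul_div_cancel₀ _ hy0]
    refine TV.span_singleton D ?_ hD h3
    change φ' (qm π A h ⟨y, hy⟩) = 0
    rw [qm_apply π h hy]
    have : (⟨pq π y, pq_mem π h hy⟩ : im π A h) = 0 := Subtype.ext hyπ
    rw [this, map_zero])
  refine ⟨E, fun a ha => ?_⟩
  rw [← qm_apply π h ha]
  exact hE ⟨a, ha⟩

/-- The image of a chart is smooth. -/
lemma smooth_im {A : Subalgebra k K} (h : A ≤ Q) [Algebra.Smooth k A] {y : K} (hy : y ∈ A)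
    (hy0 : y ≠ 0) (hyπ : pq π y = 0) (hker : ∀ a ∈ A, pq π a = 0 → a / y ∈ A)
    (hv : ∀ (κ : Type u) [Field κ] [Algebra k κ] (φ : A →ₐ[k] κ), φ ⟨y, hy⟩ = 0 →
      ∃ D : TV φ, D.D ⟨y, hy⟩ ≠ 0) : Algebra.Smooth k (im π A h) := by
  have h1 : Algebra.Smooth k (A ⧸ Ideal.span {(⟨y, hy⟩ : A)}) := smooth_quot _ hv
  have h2 : RingHom.ker (qm π A h) = Ideal.span {(⟨y, hy⟩ : A)} := by
    ext ⟨a, ha⟩
    rw [RingHom.mem_ker, Ideal.mem_span_singleton, qm_apply π h ha]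
    constructor
    · intro h0
      have h3 : pq π a = 0 := congrArg Subtype.val h0
      refine ⟨⟨a / y, hker a ha h3⟩, Subtype.ext ?_⟩
      change a = y * (a / y)
      rw [mul_div_cancel₀ _ hy0]
    · rintro ⟨b, hb⟩
      apply Subtype.ext
      change pq π a = 0
      have h3 : a = y * b := congrArg Subtype.val hb
      rw [h3, pq_mul π (h hy) (h b.2), hyπ, zero_mul]
  have e1 : (A ⧸ RingHom.ker (qm π A h)) ≃ₐ[k] im π A h :=
    Ideal.quotientKerAlgEquivOfSurjective (qm_surj π A h)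
  rw [h2] at e1
  exact Algebra.Smooth.of_equiv e1

/-- Composition of a valuation ring of `L` with the place of `K` given by `π`. -/
def pullV (hK : ∀ x : K, (∃ a b : Q, π b ≠ 0 ∧ x * b = a) ∨ (∃ a b : Q, π b ≠ 0 ∧ x⁻¹ * b = a))
    (V : ValuationSubring L) : ValuationSubring K where
  carrier := {x | ∃ a b : Q, π b ≠ 0 ∧ x * b = a ∧ π a / π b ∈ V}
  mul_mem' := by
    rintro x y ⟨a, b, hb, h1, h2⟩ ⟨a', b', hb', h1', h2'⟩
    refine ⟨a * a', b * b', ?_, ?_, ?_⟩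
    · rw [map_mul]; exact mul_ne_zero hb hb'
    · push_cast
      rw [← h1, ← h1']; ring
    · rw [map_mul, map_mul, mul_div_mul_comm]
      exact V.mul_mem _ _ h2 h2'
  one_mem' := ⟨1, 1, by rw [map_one]; exact one_ne_zero, by simp, by
    rw [map_one, div_one]; exact V.one_mem⟩
  add_mem' := by
    rintro x y ⟨a, b, hb, h1, h2⟩ ⟨a', b', hb', h1', h2'⟩
    refine ⟨a * b' + a' * b, b * b', ?_, ?_, ?_⟩
    · rw [map_mul]; exact mul_ne_zero hb hb'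
    · push_cast
      rw [← h1, ← h1']; ring
    · have : π (a * b' + a' * b) / π (b * b') = π a / π b + π a' / π b' := by
        rw [map_add, map_mul, map_mul, map_mul]
        field_simp
      rw [this]
      exact V.add_mem _ _ h2 h2'
  zero_mem' := ⟨0, 1, by rw [map_one]; exact one_ne_zero, by simp, by
    rw [map_zero, zero_div]; exact V.zero_mem⟩
  neg_mem' := by
    rintro x ⟨a, b, hb, h1, h2⟩
    refine ⟨-a, b, hb, ?_, ?_⟩
    · push_cast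
      rw [← h1]; ring
    · rw [map_neg, neg_div]
      exact V.neg_mem _ h2
  mem_or_inv_mem' := by
    intro x
    have key : ∀ x : K, (∃ a b : Q, π b ≠ 0 ∧ x * b = a) →
        (∃ a b : Q, π b ≠ 0 ∧ x * b = a ∧ π a / π b ∈ V) ∨
        (∃ a b : Q, π b ≠ 0 ∧ x⁻¹ * b = a ∧ π a / π b ∈ V) := by
      rintro x ⟨a, b, hb, h1⟩
      by_cases ha : π a = 0
      · left
        refine ⟨a, b, hb, h1, ?_⟩
        rw [ha, zero_div]
        exact V.zero_mem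
      · rcases V.mem_or_inv_mem (π a / π b) with h | h
        · exact Or.inl ⟨a, b, hb, h1, h⟩
        · right
          refine ⟨b, a, ha, ?_, ?_⟩
          · have hx : x ≠ 0 := by
              rintro rfl
              apply ha
              have : a = 0 := by
                apply Subtype.ext
                rw [← h1, zero_mul]
                rfl
              rw [this, map_zero]
            rw [← h1]
            field_simp
          · rw [inv_div] at h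
            exact h
    rcases hK x with h | h
    · exact key x h
    · have := key x⁻¹ h
      rw [inv_inv] at this
      exact this.symm

lemma pullV_pq {hK : ∀ x : K, (∃ a b : Q, π b ≠ 0 ∧ x * b = a) ∨
    (∃ a b : Q, π b ≠ 0 ∧ x⁻¹ * b = a)} {V : ValuationSubring L} {x : K} (hx : x ∈ Q)
    (h : x ∈ pullV π hK V) : pq π x ∈ V := by
  obtain ⟨a, b, hb, h1, h2⟩ := h
  have h3 : pq π x = π a / π b := by
    rw [eq_div_iff hb, pq_of π hx, ← map_mul]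
    congr 1
    exact Subtype.ext h1
  rw [h3]
  exact h2

end pq

section vert

variable {k K : Type u} [Field k] [Field K] [Algebra k K] {T I : Type} [Fintype I]
    {ι : Type} [Fintype ι] [Nonempty ι]

/-- At the zeros of the equation of the new divisor there are vertical tangent vectors which are
transversal to it. -/
theorem vert (M : LM (⊥ : Subalgebra k K) ⊤ T I) (m : ι → K) (Γ : ι → I → ℤ) (hF : Fn M m Γ)
    (c : ι → k) (hc : ∀ i, c i ≠ 0) (f : K) (hf : f = ∑ i, c i • m i)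
    (Ds : Set (Derivation k K K)) (hLD : ∀ D ∈ Ds, LD M D) (hsep : SepD Ds m) (t : T) (i0 : ι)
    (hi0 : ∀ b, Le M t (Γ i0) (Γ b)) (B : Subalgebra k K) (hB : B ≤ M.A t)
    (hDB : ∀ D ∈ Ds, ∀ c ∈ B, D c = 0) (hfA : f / m i0 ∈ M.A t) {κ : Type u} [Field κ]
    [Algebra k κ] (φ : M.A t →ₐ[k] κ) (hφ : φ ⟨f / m i0, hfA⟩ = 0) :
    ∃ δ : TV φ, δ.D ⟨f / m i0, hfA⟩ ≠ 0 ∧ (∀ c (hc : c ∈ B), δ.D ⟨c, hB hc⟩ = 0) ∧
      ∀ i, φ ⟨M.x t i, M.xA t i⟩ = 0 → δ.D ⟨M.x t i, M.xA t i⟩ = 0 := by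
  classical
  have hT := nonempty_T M
  have hm0 : ∀ i, m i ≠ 0 := hF.ne
  have hmem : ∀ i, m i / m i0 ∈ M.A t := fun i => div_mem_of_le M t m Γ hF (hi0 i)
  have hfeq : f / m i0 = ∑ i, c i • (m i / m i0) := by
    rw [hf, Finset.sum_div]
    exact Finset.sum_congr rfl fun i _ => by rw [smul_div_assoc]
  by_contra hcon
  push Not at hcon
  have key : ∀ i, i ≠ i0 → φ ⟨m i / m i0, hmem i⟩ = 0 := by
    intro i hi
    obtain ⟨D, hDs, l, h1, h2⟩ := hsep i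
    have hD := hLD D hDs
    let δ := TV.ofDer D (hD.dA t) φ
    have hDf : D (f / m i0) = c i • (m i / m i0) := by
      rw [hfeq, map_sum, Finset.sum_eq_single i]
      · rw [Derivation.map_smul]
        congr 1
        have h3 := h2 i0 (Ne.symm hi)
        rw [div_eq_mul_inv, Derivation.leibniz, Derivation.leibniz_inv, h1, h3]
        have h4 := hm0 i0
        simp only [smul_eq_mul, Algebra.smul_def]
        rw [map_add, map_one]
        field_simp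
        ring
      · intro j _ hj
        rw [Derivation.map_smul, div_eq_mul_inv, Derivation.leibniz, Derivation.leibniz_inv,
          h2 j hj, h2 i0 (Ne.symm hi)]
        have h4 := hm0 i0
        simp only [smul_eq_mul, Algebra.smul_def]
        field_simp
        ring
      · intro h; exact absurd (Finset.mem_univ i) h
    by_contra hne
    have h5 : δ.D ⟨f / m i0, hfA⟩ ≠ 0 := by
      change φ ⟨D (f / m i0), _⟩ ≠ 0
      have e : (⟨D (f / m i0), hD.dA t _ hfA⟩ : M.A t) =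
          c i • ⟨m i / m i0, hmem i⟩ := Subtype.ext hDf
      rw [e, map_smul]
      exact smul_ne_zero (hc i) hne
    have h5' : ∀ c (hc : c ∈ B), δ.D ⟨c, hB hc⟩ = 0 := by
      intro c hc
      change φ ⟨D c, _⟩ = 0
      have e : (⟨D c, hD.dA t _ (hB hc)⟩ : M.A t) = 0 := Subtype.ext (hDB D hDs c hc)
      rw [e, map_zero]
    obtain ⟨l, h6, h7⟩ := hcon δ h5 h5'
    apply h7
    change φ ⟨D (M.x t l), _⟩ = 0
    have e : (⟨D (M.x t l), hD.dA t _ (M.xA t l)⟩ : M.A t) =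
        ⟨D (M.x t l) / M.x t l, hD.dx t l⟩ * ⟨M.x t l, M.xA t l⟩ := by
      apply Subtype.ext
      change D (M.x t l) = D (M.x t l) / M.x t l * M.x t l
      rw [div_mul_cancel₀ _ (M.x0 t l)]
    rw [e, map_mul, h6, mul_zero]
  have h8 : φ ⟨f / m i0, hfA⟩ = algebraMap k κ (c i0) := by
    have e : (⟨f / m i0, hfA⟩ : M.A t) = ∑ i, c i • ⟨m i / m i0, hmem i⟩ := by
      apply Subtype.ext
      refine hfeq.trans ?_
      simp
    rw [e, map_sum, Finset.sum_eq_single i0]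
    · rw [map_smul]
      have e2 : (⟨m i0 / m i0, hmem i0⟩ : M.A t) = 1 :=
        Subtype.ext (div_self (hm0 _))
      rw [e2, map_one, Algebra.algebraMap_eq_smul_one]
    · intro i _ hi
      rw [map_smul, key i hi, smul_zero]
    · intro h; exact absurd (Finset.mem_univ _) h
  rw [hφ] at h8
  exact hc i0 ((map_eq_zero _).1 h8.symm)

end vert

section model

variable {k K L : Type u} [Field k] [Field K] [Algebra k K] [Field L] [Algebra k L]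
  {Q : Subalgebra k K} (π : Q →ₐ[k] L) {T I : Type} [Fintype I]

/-- The restriction of a model to a divisor. -/
theorem exists_model (hK : ∀ x : K, (∃ a b : Q, π b ≠ 0 ∧ x * b = a) ∨
    (∃ a b : Q, π b ≠ 0 ∧ x⁻¹ * b = a)) (M : LM (⊥ : Subalgebra k K) ⊤ T I)
    (hAQ : ∀ t, M.A t ≤ Q) (hxQ' : ∀ t i, (M.x t i)⁻¹ ∈ Q) (y : T → K) (hy : ∀ t, y t ∈ M.A t)
    (hy0 : ∀ t, y t ≠ 0) (hyπ : ∀ t, pq π (y t) = 0)
    (hker : ∀ t, ∀ a ∈ M.A t, pq π a = 0 → a / y t ∈ M.A t)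
    (hS : ∀ t, SNC (M.A t) (fun o : Option I => o.elim (y t) (M.x t))) :
    ∃ M' : LM (⊥ : Subalgebra k L) ⊤ T I, (M'.A = fun t => im π (M.A t) (hAQ t)) ∧
      M'.x = fun t i => pq π (M.x t i) := by
  obtain ⟨t0⟩ := nonempty_T M
  have hHQ : ∀ t, M.H t / M.H t0 ∈ Q := fun t => hAQ t0 (M.rt t0 t)
  have hHQ' : ∀ t, (M.H t / M.H t0)⁻¹ ∈ Q := fun t => by
    rw [inv_div]; exact hAQ t (M.rt t t0)
  have hH0 : ∀ t, M.H t / M.H t0 ≠ 0 := fun t => div_ne_zero (M.H0 t) (M.H0 t0)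
  have hHdiv : ∀ t t', pq π (M.H t' / M.H t0) / pq π (M.H t / M.H t0) =
      pq π (M.H t' / M.H t) := by
    intro t t'
    rw [← pq_div π (hHQ t') (hH0 t) (hHQ t) (hHQ' t),
      div_div_div_cancel_right₀ (M.H0 t0)]
  have hxQ : ∀ t i, M.x t i ∈ Q := fun t i => hAQ t (M.xA t i)
  have hφy : ∀ t (κ : Type u) [Field κ] [Algebra k κ] (φ' : im π (M.A t) (hAQ t) →ₐ[k] κ),
      (φ'.comp (qm π (M.A t) (hAQ t))) ⟨y t, hy t⟩ = 0 := by
    intro t κ _ _ φ'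
    change φ' (qm π (M.A t) (hAQ t) ⟨y t, hy t⟩) = 0
    rw [qm_apply π (hAQ t) (hy t)]
    have : (⟨pq π (y t), pq_mem π (hAQ t) (hy t)⟩ : im π (M.A t) (hAQ t)) = 0 :=
      Subtype.ext (hyπ t)
    rw [this, map_zero]
  refine ⟨{ A := fun t => im π (M.A t) (hAQ t)
            H := fun t => pq π (M.H t / M.H t0)
            x := fun t i => pq π (M.x t i)
            sm := ?_
            base := fun t => bot_le
            H0 := fun t => pq_ne π (hH0 t) (hHQ t) (hHQ' t)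
            HR := fun t => trivial
            rt := ?_
            gl := ?_
            dn := fun t f hf => ⟨0, trivial⟩
            cv := ?_
            xA := fun t i => pq_mem π _ (M.xA t i)
            x0 := fun t i => pq_ne π (M.x0 t i) (hxQ t i) (hxQ' t i)
            gi := ?_
            snc := ?_ }, rfl, rfl⟩
  · intro t
    have := M.sm t
    refine smooth_im π (hAQ t) (hy t) (hy0 t) (hyπ t) (hker t) ?_
    intro κ _ _ φ hφ
    obtain ⟨D, hD, -⟩ := hS t κ φ none (hy t) hφ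
    exact ⟨D, by
      have h1 : D.D ⟨y t, hy t⟩ = 1 := hD
      rw [h1]; exact one_ne_zero⟩
  · intro t t'
    rw [hHdiv]
    exact pq_mem π (hAQ t) (M.rt t t')
  · intro t t' f hf
    obtain ⟨a, ha, rfl⟩ := (mem_im π).1 hf
    obtain ⟨n, hn⟩ := M.gl t t' a ha
    refine ⟨n, ?_⟩
    rw [hHdiv, ← pq_pow π (hAQ _ (M.rt t t')),
      ← pq_mul π (Q.pow_mem (hAQ _ (M.rt t t')) n) (hAQ t' ha)]
    exact pq_mem π (hAQ t) hn
  · intro V hV
    obtain ⟨t, ht⟩ := M.cv (pullV π hK V) (by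
      intro a ha
      obtain ⟨r, rfl⟩ := Algebra.mem_bot.1 ha
      refine ⟨algebraMap k Q r, 1, by rw [map_one]; exact one_ne_zero, ?_, ?_⟩
      · rw [Subalgebra.coe_one, mul_one]
        rfl
      · rw [map_one, div_one, AlgHom.commutes]
        exact hV _ (Subalgebra.algebraMap_mem _ r))
    refine ⟨t, ?_⟩
    intro f hf
    obtain ⟨a, ha, rfl⟩ := (mem_im π).1 hf
    exact pullV_pq π (hAQ t ha) (ht a ha)
  · intro t t' i
    obtain ⟨n, hn⟩ := M.gi t t' i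
    refine ⟨n, ?_⟩
    have h1 : M.x t' i / M.x t i ∈ Q := by
      rw [div_eq_mul_inv]
      exact Q.mul_mem (hxQ t' i) (hxQ' t i)
    rw [hHdiv, ← pq_pow π (hAQ _ (M.rt t t')),
      ← pq_div π (hxQ t' i) (M.x0 t i) (hxQ t i) (hxQ' t i),
      ← pq_mul π (Q.pow_mem (hAQ _ (M.rt t t')) n) h1]
    exact pq_mem π (hAQ t) hn
  · intro t κ _ _ φ' i hi hφ'
    have hφ : (φ'.comp (qm π (M.A t) (hAQ t))) ⟨M.x t i, M.xA t i⟩ = 0 := by
      change φ' (qm π (M.A t) (hAQ t) ⟨M.x t i, M.xA t i⟩) = 0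
      rw [qm_apply π (hAQ t) (M.xA t i)]
      exact hφ'
    obtain ⟨D, hD1, hD2⟩ := hS t κ (φ'.comp (qm π (M.A t) (hAQ t))) (some i) (M.xA t i) hφ
    have hDy : D.D ⟨y t, hy t⟩ = 0 := hD2 none (hy t) (by simp) (hφy t κ φ')
    obtain ⟨E, hE⟩ := desc π (hAQ t) (hy t) (hy0 t) (hyπ t) (hker t) φ' D hDy
    refine ⟨E, (hE _ (M.xA t i)).trans hD1, ?_⟩
    intro j hj hji hφj
    refine (hE _ (M.xA t j)).trans (hD2 (some j) (M.xA t j) (by simpa using hji) ?_)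
    change φ' (qm π (M.A t) (hAQ t) ⟨M.x t j, M.xA t j⟩) = 0
    rw [qm_apply π (hAQ t) (M.xA t j)]
    exact hφj

end model

section aux

variable {k K L : Type u} [Field k] [Field K] [Algebra k K] [Field L] [Algebra k L]
  {Q : Subalgebra k K}

/-- Lifting of tangent vectors of the base. -/
lemma sub_aux (π : Q →ₐ[k] L) {I : Type} {A B : Subalgebra k K} (hAQ : A ≤ Q) (hBA : B ≤ A)
    {x : I → K} (hx : ∀ i, x i ∈ A) {y b : K} (hy : y ∈ A) (hy0 : y ≠ 0) (hyπ : pq π y = 0)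
    (hb : b ∈ B) (hker : ∀ a ∈ A, pq π a = 0 → a / y ∈ A)
    (hvert : ∀ (κ : Type u) [Field κ] [Algebra k κ] (φ : A →ₐ[k] κ), φ ⟨y, hy⟩ = 0 →
      ∃ δ : TV φ, δ.D ⟨y, hy⟩ ≠ 0 ∧ (∀ c (hc : c ∈ B), δ.D ⟨c, hBA hc⟩ = 0) ∧
        ∀ i, φ ⟨x i, hx i⟩ = 0 → δ.D ⟨x i, hx i⟩ = 0)
    (hsub : ∀ (κ : Type u) [Field κ] [Algebra k κ] (φ : A →ₐ[k] κ) (φ0 : B →ₐ[k] κ),
      (∀ c (hc : c ∈ B), φ ⟨c, hBA hc⟩ = φ0 ⟨c, hc⟩) → φ0 ⟨b, hb⟩ ≠ 0 →
      ∀ D0 : TV φ0, ∃ D : TV φ, (∀ c (hc : c ∈ B), D.D ⟨c, hBA hc⟩ = D0.D ⟨c, hc⟩) ∧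
        ∀ i, φ ⟨x i, hx i⟩ = 0 → D.D ⟨x i, hx i⟩ = 0)
    (A' : Subalgebra k L) (hA' : A' = im π A hAQ) (B' : Subalgebra k L)
    (hB' : B' = im π B (hBA.trans hAQ)) (x' : I → L) (hx'e : x' = fun i => pq π (x i))
    (hx' : ∀ i, x' i ∈ A') (b' : L) (hb'e : b' = pq π b) (hb' : b' ∈ B') (hBA' : B' ≤ A')
    {κ : Type u} [Field κ] [Algebra k κ] (φ' : A' →ₐ[k] κ) (φ0' : B' →ₐ[k] κ)
    (h1 : ∀ c (hc : c ∈ B'), φ' ⟨c, hBA' hc⟩ = φ0' ⟨c, hc⟩) (h2 : φ0' ⟨b', hb'⟩ ≠ 0)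
    (D0 : TV φ0') : ∃ D : TV φ', (∀ c (hc : c ∈ B'), D.D ⟨c, hBA' hc⟩ = D0.D ⟨c, hc⟩) ∧
      ∀ i, φ' ⟨x' i, hx' i⟩ = 0 → D.D ⟨x' i, hx' i⟩ = 0 := by
  subst hA' hB' hx'e hb'e
  have hBQ := hBA.trans hAQ
  have e1 : ∀ a (ha : a ∈ A), (φ'.comp (qm π A hAQ)) ⟨a, ha⟩ =
      φ' ⟨pq π a, pq_mem π hAQ ha⟩ := by
    intro a ha
    change φ' (qm π A hAQ ⟨a, ha⟩) = _
    rw [qm_apply π hAQ ha]
  have e2 : ∀ a (ha : a ∈ B), (φ0'.comp (qm π B hBQ)) ⟨a, ha⟩ =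
      φ0' ⟨pq π a, pq_mem π hBQ ha⟩ := by
    intro a ha
    change φ0' (qm π B hBQ ⟨a, ha⟩) = _
    rw [qm_apply π hBQ ha]
  obtain ⟨D, hD1, hD2⟩ := hsub κ (φ'.comp (qm π A hAQ)) (φ0'.comp (qm π B hBQ))
    (fun c hc => by rw [e1 c (hBA hc), e2 c hc]; exact h1 _ (pq_mem π hBQ hc))
    (by rw [e2 b hb]; exact h2) (D0.restr (qm π B hBQ))
  have hφy : (φ'.comp (qm π A hAQ)) ⟨y, hy⟩ = 0 := by
    rw [e1 y hy]
    have : (⟨pq π y, pq_mem π hAQ hy⟩ : im π A hAQ) = 0 := Subtype.ext hyπ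
    rw [this, map_zero]
  obtain ⟨δ, hδ1, hδ2, hδ3⟩ := hvert κ _ hφy
  have hF : (TV.comb 1 (-(D.D ⟨y, hy⟩ * (δ.D ⟨y, hy⟩)⁻¹)) D δ).D ⟨y, hy⟩ = 0 := by
    rw [TV.comb_D]
    field_simp
    ring
  obtain ⟨E, hE⟩ := desc π hAQ hy hy0 hyπ hker φ' _ hF
  refine ⟨E, ?_, ?_⟩
  · intro z hz
    obtain ⟨a, ha, rfl⟩ := (mem_im π).1 hz
    refine (hE a (hBA ha)).trans ?_
    rw [TV.comb_D, hδ2 a ha, hD1 a ha, TV.restr_D, qm_apply π hBQ ha, one_mul, mul_zero,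
      add_zero]
  · intro i hi
    have hi' : (φ'.comp (qm π A hAQ)) ⟨x i, hx i⟩ = 0 := by
      rw [e1 _ (hx i)]
      exact hi
    refine (hE _ (hx i)).trans ?_
    rw [TV.comb_D, hδ3 i hi', hD2 i hi', mul_zero, mul_zero, add_zero]

theorem cut_aux (hnz : S2_nz.{u}) [PerfectField k] {G : Type} [Fintype G] (g : G → K)
    (Ds : Set (Derivation k K K)) (hgQ : ∀ a, g a ∈ Q ∧ (g a)⁻¹ ∈ Q)
    (hDQ : ∀ D ∈ Ds, ∀ q ∈ Q, D q ∈ Q) (hDg : ∀ D ∈ Ds, ∀ a, ∃ χ : k, D (g a) = χ • g a)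
    [IsNoetherianRing Q] (hK : ∀ x : K, ∃ a b : Q, b ≠ 0 ∧ x * b = a) {ι : Type} [Fintype ι]
    [Nonempty ι] (m : ι → K) (hmQ : ∀ i, m i ∈ Q ∧ (m i)⁻¹ ∈ Q) (c : ι → k) (f : Q)
    (hc : ∀ i, c i ≠ 0) (hf : (f : K) = ∑ i, c i • m i) (hf0 : (f : K) ≠ 0) (hsep : SepD Ds m)
    (π : Q →ₐ[k] L) (hπ : ∀ q, π q = 0 ↔ f ∣ q) (g' : G → L)
    (hg' : ∀ a (h : g a ∈ Q), g' a = π ⟨g a, h⟩) {T I : Type} [Finite T] [Fintype I]
    [DecidableEq I] (M : LM (⊥ : Subalgebra k K) ⊤ T I) (Γ : G ⊕ ι → I → ℤ)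
    (hFn : Fn M (Sum.elim g m) Γ) (hC : ∀ a b, Cmp M Γ a b) (hLD : ∀ D ∈ Ds, LD M D)
    (B : T → Subalgebra k K) (b : T → K) (hB : Bas Q Ds M B b) :
    Sta g' π.range {D' | ∃ D ∈ Ds, (∃ χ : k, D f = χ • (f : K)) ∧
      ∀ (q : Q) (h : D q ∈ Q), D' (π q) = π ⟨D q, h⟩} := by
  classical
  have hT := nonempty_T M
  have hFm : Fn M m (Γ ∘ Sum.inr) := hFn.comp Sum.inr
  have hFg : Fn M g (Γ ∘ Sum.inl) := hFn.comp Sum.inl
  have hg0 : ∀ a, g a ≠ 0 := hFg.ne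
  have hm0 : ∀ i, m i ≠ 0 := hFm.ne
  have hAD : AddData M m (Γ ∘ Sum.inr) c (f : K) :=
    { fn := hFm
      cmp := fun a b => hC _ _
      c0 := hc
      hf := hf
      f0 := hf0
      sep := fun i => by
        obtain ⟨D, hD, l, h1, h2⟩ := hsep i
        exact ⟨D, l, hLD D hD, h1, h2⟩ }
  obtain ⟨i0, M2, hi0, hA, hH, hx⟩ := exists_add hAD
  let y : T → K := fun t => (f : K) / m (i0 t)
  have hS : ∀ t, SNC (M.A t) (fun o : Option I => o.elim (y t) (M.x t)) := by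
    intro t
    have := M2.snc t
    rw [hA, hx] at this
    exact this
  have hy : ∀ t, y t ∈ M.A t := by
    intro t
    have := M2.xA t none
    rw [hA, hx] at this
    exact this
  have hy0 : ∀ t, y t ≠ 0 := fun t => div_ne_zero hf0 (hm0 _)
  have hAQ := hB.A
  have hyπ : ∀ t, pq π (y t) = 0 := by
    intro t
    have h1 : y t = (f : K) * (m (i0 t))⁻¹ := div_eq_mul_inv _ _
    rw [h1, pq_mul π f.2 (hmQ _).2, pq_coe, (hπ f).2 dvd_rfl, zero_mul]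
  have hvert : ∀ t (κ : Type u) [Field κ] [Algebra k κ] (φ : M.A t →ₐ[k] κ),
      φ ⟨y t, hy t⟩ = 0 → ∃ δ : TV φ, δ.D ⟨y t, hy t⟩ ≠ 0 ∧
        (∀ c (hc : c ∈ B t), δ.D ⟨c, hB.BA t hc⟩ = 0) ∧
        ∀ i, φ ⟨M.x t i, M.xA t i⟩ = 0 → δ.D ⟨M.x t i, M.xA t i⟩ = 0 := by
    intro t κ _ _ φ hφ
    exact vert M m _ hFm c hc f hf Ds hLD hsep t (i0 t) (hi0 t) (B t) (hB.BA t)
      (fun D hD => hB.DB D hD t) (hy t) φ hφ
  have hker : ∀ t, ∀ a ∈ M.A t, pq π a = 0 → a / y t ∈ M.A t := by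
    intro t a ha h0
    rw [pq_of π (hAQ t ha)] at h0
    obtain ⟨q, hq⟩ := (hπ _).1 h0
    have hq' : a = (f : K) * q := congrArg Subtype.val hq
    have hsm := M.sm t
    obtain ⟨c', hc', N, hc0, hcN⟩ := hB.cof t (m (i0 t) * q) (Q.mul_mem (hmQ _).1 q.2)
    have hay : a / y t = m (i0 t) * q := by
      have h1 := hm0 (i0 t)
      change a / ((f : K) / m (i0 t)) = _
      rw [hq']
      field_simp
    have h1 : c' * a / y t ∈ M.A t := by
      refine div_mem_of_prod_mul (hS t) (hy t) (M.xA t) (hy0 t) (M.x0 t) (fun _ => (N : ℤ))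
        ((M.A t).mul_mem (hB.BA t hc') ha) ?_
      have h2 : (∏ l, M.x t l ^ (N : ℤ)) * (c' * a / y t) =
          c' * (∏ i, M.x t i) ^ N * (m (i0 t) * q) := by
        rw [mul_div_assoc, hay, ← Finset.prod_pow]
        simp only [zpow_natCast]
        ring
      rw [h2]
      exact hcN
    refine hnz k K I (M.A t) (B t) (hB.BA t) (M.x t) (M.xA t) (y t) (b t) (hy t) (hB.bB t)
      (hy0 t) (hB.b0 t) (M.x0 t) hsm (hB.ft t) (hS t) (hB.bx t) ?_ ?_ c' hc' hc0 a ha h1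
    · intro κ _ _ φ φ0 h1 h2 D0
      obtain ⟨D, hD, -⟩ := hB.sub t κ φ φ0 h1 h2 D0
      exact ⟨D, hD⟩
    · intro κ _ _ φ hφ
      obtain ⟨δ, h1, h2, -⟩ := hvert t κ φ hφ
      exact ⟨δ, h2, h1⟩
  -- the place
  have hprime : Prime f := by
    refine ⟨fun h => hf0 (by rw [h]; rfl), ?_, ?_⟩
    · intro hu
      obtain ⟨v, hv⟩ := hu.exists_right_inv
      have h1 : π (f * v) = 0 := (hπ _).2 (dvd_mul_right f v)
      rw [hv, map_one] at h1
      exact one_ne_zero h1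
    · intro a b' hab
      have h1 := (hπ _).2 hab
      rw [map_mul] at h1
      rcases mul_eq_zero.1 h1 with h | h
      · exact Or.inl ((hπ _).1 h)
      · exact Or.inr ((hπ _).1 h)
  have hK' : ∀ x : K, (∃ a b : Q, π b ≠ 0 ∧ x * b = a) ∨
      (∃ a b : Q, π b ≠ 0 ∧ x⁻¹ * b = a) := by
    intro x
    rcases ordRing_total f hprime hK x with h | h
    · obtain ⟨a, b, hb, h1⟩ := (mem_ordRing f hprime).1 h
      exact Or.inl ⟨a, b, fun h0 => hb ((hπ b).1 h0), h1⟩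
    · obtain ⟨a, b, hb, h1⟩ := (mem_ordRing f hprime).1 h
      exact Or.inr ⟨a, b, fun h0 => hb ((hπ b).1 h0), h1⟩
  obtain ⟨M', hA', hx'⟩ := exists_model π hK' M hAQ hB.x y hy hy0 hyπ hker hS
  have hgp : ∀ a, g' a = pq π (g a) := fun a => by rw [hg' a (hgQ a).1, pq_of π (hgQ a).1]
  have hD' : ∀ D ∈ Ds, ∀ D' : Derivation k L L,
      (∀ (q : Q) (h : D q ∈ Q), D' (π q) = π ⟨D q, h⟩) →
      ∀ q ∈ Q, D' (pq π q) = pq π (D q) := by
    intro D hD D' h q hq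
    rw [pq_of π hq, pq_of π (hDQ D hD q hq)]
    exact h ⟨q, hq⟩ (hDQ D hD q hq)
  have hmem : ∀ z, z ∈ π.range ↔ ∃ q ∈ Q, pq π q = z := by
    intro z
    constructor
    · rintro ⟨q, rfl⟩
      exact ⟨q, q.2, pq_coe π q⟩
    · rintro ⟨q, hq, rfl⟩
      rw [pq_of π hq]
      exact ⟨⟨q, hq⟩, rfl⟩
  have hBQ : ∀ t, B t ≤ Q := fun t => (hB.BA t).trans (hAQ t)
  refine ⟨?_, ?_, ?_, T, I, inferInstance, inferInstance, inferInstance, M',
    fun a => Γ (Sum.inl a), fun t => im π (B t) (hBQ t), fun t => pq π (b t), ?_, ?_, ?_⟩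
  · intro a
    rw [hgp a, ← pq_inv π (hg0 a) (hgQ a).1 (hgQ a).2]
    exact ⟨(hmem _).2 ⟨_, (hgQ a).1, rfl⟩, (hmem _).2 ⟨_, (hgQ a).2, rfl⟩⟩
  · rintro D' ⟨D, hD, hχ, h⟩ z hz
    obtain ⟨q, hq, rfl⟩ := (hmem z).1 hz
    rw [hD' D hD D' h q hq]
    exact (hmem _).2 ⟨_, hDQ D hD q hq, rfl⟩
  · rintro D' ⟨D, hD, hχ, h⟩ a
    obtain ⟨χ, hχ⟩ := hDg D hD a
    refine ⟨χ, ?_⟩
    rw [hgp a, hD' D hD D' h _ (hgQ a).1, hχ, pq_of π (Q.smul_mem (hgQ a).1 χ),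
      pq_of π (hgQ a).1, ← map_smul]
    rfl
  · intro a t
    obtain ⟨w, h0, h1, h2, h3⟩ := hFn (Sum.inl a) t
    rw [hA', hx']
    refine ⟨pq π w, pq_ne π h0 (hAQ t h1) (hAQ t h2), pq_mem π (hAQ t) h1, ?_, ?_⟩
    · rw [← pq_inv π h0 (hAQ t h1) (hAQ t h2)]
      exact pq_mem π (hAQ t) h2
    · have h4 : ∀ i, M.x t i ^ Γ (Sum.inl a) i ∈ Q := fun i =>
        zpow_mem_of (hAQ t (M.xA t i)) (Or.inr (hB.x t i))
      have h5 : g a = w * ∏ i, M.x t i ^ Γ (Sum.inl a) i := h3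
      rw [hgp a, h5, pq_mul π (hAQ t h1) (Q.prod_mem fun i _ => h4 i),
        pq_prod π _ _ fun i _ => h4 i]
      congr 1
      refine Finset.prod_congr rfl fun i _ => ?_
      exact pq_zpow π (M.x0 t i) (hAQ t (M.xA t i)) (hB.x t i) _
  · rintro D' ⟨D, hD, hχ, h⟩
    have h1 := hLD D hD
    constructor
    · rw [hA']
      intro t z hz
      obtain ⟨a, ha, rfl⟩ := (mem_im π).1 hz
      rw [hD' D hD D' h a (hAQ t ha)]
      exact pq_mem π (hAQ t) (h1.dA t a ha)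
    · rw [hA', hx']
      intro t i
      have hxi := M.xA t i
      change D' (pq π (M.x t i)) / pq π (M.x t i) ∈ im π (M.A t) (hAQ t)
      rw [hD' D hD D' h _ (hAQ t hxi), ← pq_div π (hAQ t (h1.dA t _ hxi)) (M.x0 t i)
        (hAQ t hxi) (hB.x t i)]
      exact pq_mem π (hAQ t) (h1.dx t i)
  · have hprodQ : ∀ t, ∏ i, M.x t i ∈ Q := fun t => Q.prod_mem fun i _ => hAQ t (M.xA t i)
    have hprodeq : ∀ t (N : ℕ), (∏ i, pq π (M.x t i)) ^ N = pq π ((∏ i, M.x t i) ^ N) := by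
      intro t N
      rw [pq_pow π (hprodQ t), pq_prod π _ _ fun i _ => hAQ t (M.xA t i)]
    refine { A := ?_, x := ?_, BA := ?_, ft := ?_, bB := ?_, b0 := ?_, DB := ?_, BQ := ?_,
             cof := ?_, bx := ?_, sub := ?_ }
    · rw [hA']
      intro t z hz
      obtain ⟨a, ha, rfl⟩ := (mem_im π).1 hz
      exact (hmem _).2 ⟨a, hAQ t ha, rfl⟩
    · rw [hx']
      intro t i
      rw [← pq_inv π (M.x0 t i) (hAQ t (M.xA t i)) (hB.x t i)]
      exact (hmem _).2 ⟨_, hB.x t i, rfl⟩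
    · rw [hA']
      intro t z hz
      obtain ⟨a, ha, rfl⟩ := (mem_im π).1 hz
      exact pq_mem π (hAQ t) (hB.BA t ha)
    · intro t
      have := hB.ft t
      exact Algebra.FiniteType.of_surjective (qm π (B t) (hBQ t)) (qm_surj π (B t) (hBQ t))
    · intro t
      exact pq_mem π (hBQ t) (hB.bB t)
    · intro t
      exact pq_ne π (hB.b0 t) (hBQ t (hB.bB t)) (hB.BQ t _ (hB.bB t) (hB.b0 t))
    · rintro D' ⟨D, hD, hχ, h⟩ t z hz
      obtain ⟨a, ha, rfl⟩ := (mem_im π).1 hz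
      rw [hD' D hD D' h a (hBQ t ha), hB.DB D hD t a ha, pq_zero]
    · intro t z hz hz0
      obtain ⟨a, ha, rfl⟩ := (mem_im π).1 hz
      have ha0 : a ≠ 0 := by
        rintro rfl
        exact hz0 (pq_zero π)
      rw [← pq_inv π ha0 (hBQ t ha) (hB.BQ t a ha ha0)]
      exact (hmem _).2 ⟨_, hB.BQ t a ha ha0, rfl⟩
    · rw [hA', hx']
      intro t z hz
      obtain ⟨q, hq, rfl⟩ := (hmem z).1 hz
      obtain ⟨c', hc', N, hc0, hcN⟩ := hB.cof t q hq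
      refine ⟨pq π c', pq_mem π (hBQ t) hc', N,
        pq_ne π hc0 (hBQ t hc') (hB.BQ t c' hc' hc0), ?_⟩
      change pq π c' * (∏ i, pq π (M.x t i)) ^ N * pq π q ∈ im π (M.A t) (hAQ t)
      rw [hprodeq, ← pq_mul π (hBQ t hc') (Q.pow_mem (hprodQ t) N),
        ← pq_mul π (Q.mul_mem (hBQ t hc') (Q.pow_mem (hprodQ t) N)) hq]
      exact pq_mem π (hAQ t) hcN
    · rw [hA', hx']
      intro t
      obtain ⟨N, hN⟩ := hB.bx t
      refine ⟨N, ?_⟩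
      change (∏ i, pq π (M.x t i)) ^ N / pq π (b t) ∈ im π (M.A t) (hAQ t)
      rw [hprodeq, ← pq_div π (Q.pow_mem (hprodQ t) N) (hB.b0 t) (hBQ t (hB.bB t))
        (hB.BQ t _ (hB.bB t) (hB.b0 t))]
      exact pq_mem π (hAQ t) hN
    · intro t κ _ _ φ' φ0' h1 h2 D0
      exact sub_aux π (hAQ t) (hB.BA t) (M.xA t) (hy t) (hy0 t) (hyπ t) (hB.bB t) (hker t)
        (hvert t) (hB.sub t) _ (congrFun hA' t) _ rfl _ (congrFun hx' t) (M'.xA t) _ rfl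
        (pq_mem π (hBQ t) (hB.bB t)) _ φ' φ0' h1 h2 D0

end aux

/-- **CUT**: restriction of a stage to the divisor of a function. -/
theorem main (hnz : S2_nz.{u}) (hprinc : S2_princ.{u}) : S2_cut.{u} := by
  intro k K L _ _ _ _ _ _ G _ g Q Ds hst hNoeth hK ι _ _ e c f hc hf hf0 hsep π hπ hπL g' hg'
  classical
  obtain ⟨hgQ, hDQ, hDg, T, I, i1, i2, i3, M, Γ, B, b, hFn, hLD, hB⟩ := hst
  obtain ⟨T1, I1, j1, j2, j3, M1, Γ1, ⟨hE, hE3⟩, hC⟩ := hprinc k K T I (G ⊕ ι) M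
    (Sum.elim g fun i => ∏ a, g a ^ e i a)
    (Sum.elim Γ fun i l => ∑ b, e i b * Γ b l)
  obtain ⟨B1, b1, hB1⟩ := hE3 Q Ds B b hB
  have hFn1 := hE.fn (by
    rintro (a | i)
    · exact hFn a
    · exact fn_mono hFn e i)
  have hmQ : ∀ i, (∏ a, g a ^ e i a) ∈ Q ∧ (∏ a, g a ^ e i a)⁻¹ ∈ Q := by
    intro i
    constructor
    · exact Q.prod_mem fun a _ => zpow_mem_of (hgQ a).1 (Or.inr (hgQ a).2)
    · rw [← Finset.prod_inv_distrib]
      refine Q.prod_mem fun a _ => ?_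
      rw [← zpow_neg]
      exact zpow_mem_of (hgQ a).1 (Or.inr (hgQ a).2)
  exact cut_aux hnz g Ds hgQ hDQ hDg hK (fun i => ∏ a, g a ^ e i a) hmQ c f hc hf hf0 hsep π hπ
    g' hg' M1 Γ1 hFn1 hC (fun D hD => hE.ld D (hLD D hD)) B1 b1 hB1

end Pool.Agent.W973.CUT
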